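import Mathlib

/-!
# Limit patterns of an infinite and coinfinite subset of a field of characteristic zero

For a subset `B` of a field of characteristic zero which is neither finite nor cofinite the set of
limits at infinity of the translates of `B` is infinite. So for every `m` there are `m` sets,
distinguished by a finite set, each of which looks like `B` around infinitely many places.
-/

set_option autoImplicit false

namespace Pool.Agent.Lib.MP_097535_lc.NIP

open Set Filter

section Omega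

variable {K : Type*} [Field K]

/-- The limit of the translates of `B` along an ultrafilter. -/
def ulim (B : Set K) (U : Ultrafilter K) : Set K := {x | ∀ᶠ a in (U : Filter K), a + x ∈ B}

/-- The limits of the translates of `B` at infinity. -/
def Om (B : Set K) : Set (Set K) := ulim B '' {U | (U : Filter K) ≤ cofinite}

theorem om_shift {B C : Set K} (hC : C ∈ Om B) (c : K) : {x | c + x ∈ C} ∈ Om B := by
  obtain ⟨U, hU, rfl⟩ := hC
  refine ⟨U.map (fun a => a + c), ?_, ?_⟩
  · have h1 : Tendsto (fun a : K => a + c) cofinite cofinite :=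
      (add_left_injective c).tendsto_cofinite
    exact (Filter.map_mono hU).trans h1
  · ext x
    simp only [ulim, Set.mem_ofPred_eq, Ultrafilter.coe_map, Filter.eventually_map]
    refine Filter.eventually_congr (Filter.Eventually.of_forall fun a => ?_)
    rw [add_assoc]

/-- If there are finitely many limits then all are invariant under translations. -/
theorem om_inv [CharZero K] {B : Set K} (hfin : (Om B).Finite) {C : Set K} (hC : C ∈ Om B)
    (g x : K) : g + x ∈ C ↔ x ∈ C := by
  classical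
  set n := (Om B).ncard with hn
  set h : K := g / (n.factorial : K) with hh
  have hn0 : (n.factorial : K) ≠ 0 := by
    exact_mod_cast Nat.factorial_ne_zero n
  have hmem : ∀ i : ℕ, {x | (i : K) * h + x ∈ C} ∈ Om B := fun i => om_shift hC _
  obtain ⟨i, hi, j, hj, hij, hF⟩ : ∃ i ∈ Finset.range (n + 1), ∃ j ∈ Finset.range (n + 1),
      i ≠ j ∧ {x | (i : K) * h + x ∈ C} = {x | (j : K) * h + x ∈ C} := by
    apply Finset.exists_ne_map_eq_of_card_lt_of_maps_to (t := hfin.toFinset)
      (f := fun i : ℕ => {x | (i : K) * h + x ∈ C})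
    · rw [← Set.ncard_eq_toFinset_card (Om B) hfin, Finset.card_range]
      omega
    · intro i _
      simpa using hmem i
  -- wlog i < j
  have key : ∀ i j : ℕ, i < j → j ≤ n →
      {x | (i : K) * h + x ∈ C} = {x | (j : K) * h + x ∈ C} → (g + x ∈ C ↔ x ∈ C) := by
    intro i j hlt hjn hF
    obtain ⟨d, rfl⟩ : ∃ d, j = i + d := ⟨j - i, by omega⟩
    have hd0 : 0 < d := by omega
    have h1 : ∀ x : K, x ∈ C ↔ (d : K) * h + x ∈ C := by
      intro x
      have := Set.ext_iff.1 hF (x - (i : K) * h)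
      simp only [Set.mem_ofPred_eq] at this
      have e1 : (i : K) * h + (x - (i : K) * h) = x := by ring
      have e2 : ((i + d : ℕ) : K) * h + (x - (i : K) * h) = (d : K) * h + x := by
        push_cast
        ring
      rwa [e1, e2] at this
    have h2 : ∀ k : ℕ, ∀ x : K, x ∈ C ↔ (k : K) * ((d : K) * h) + x ∈ C := by
      intro k
      induction k with
      | zero => intro x; simp
      | succ k ih =>
        intro x
        rw [ih x, h1 ((k : K) * ((d : K) * h) + x)]
        have : (d : K) * h + ((k : K) * ((d : K) * h) + x) =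
            ((k + 1 : ℕ) : K) * ((d : K) * h) + x := by
          push_cast
          ring
        rw [this]
    obtain ⟨k, hk⟩ : d ∣ n.factorial := Nat.dvd_factorial hd0 (by omega)
    have h3 := h2 k x
    have h4 : (k : K) * ((d : K) * h) = g := by
      rw [← mul_assoc, ← Nat.cast_mul, mul_comm k d, ← hk, hh]
      field_simp
    rw [h4] at h3
    exact h3.symm
  rw [Finset.mem_range] at hi hj
  rcases lt_or_gt_of_ne hij with hlt | hlt
  · exact key i j hlt (by omega) hF
  · exact key j i hlt (by omega) hF.symm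

/-- If all limits are invariant then `B` is almost invariant. -/
theorem almost_inv {B : Set K} (h : ∀ C ∈ Om B, ∀ g x : K, g + x ∈ C ↔ x ∈ C) (c : K) :
    {a | a ∈ B ∧ a + c ∉ B}.Finite := by
  by_contra hinf
  set S := {a | a ∈ B ∧ a + c ∉ B} with hS
  have hne : (cofinite ⊓ 𝓟 S).NeBot := by
    rw [Filter.inf_principal_neBot_iff]
    intro T hT
    have : (S \ Tᶜ).Infinite := Set.Infinite.sdiff hinf hT
    obtain ⟨a, ha⟩ := this.nonempty
    exact ⟨a, by simpa using ha.2, ha.1⟩
  set U := Ultrafilter.of (cofinite ⊓ 𝓟 S) with hU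
  have hle : (U : Filter K) ≤ cofinite ⊓ 𝓟 S := Ultrafilter.of_le _
  have hUc : (U : Filter K) ≤ cofinite := hle.trans inf_le_left
  have hUS : ∀ᶠ a in (U : Filter K), a ∈ S :=
    (hle.trans inf_le_right) (Filter.mem_principal_self S)
  have h1 := h (ulim B U) ⟨U, hUc, rfl⟩ c 0
  have h0 : (0 : K) ∈ ulim B U := by
    filter_upwards [hUS] with a ha
    rw [add_zero]
    exact ha.1
  have h2 := h1.2 h0
  rw [add_zero] at h2
  have h3 : ∀ᶠ a in (U : Filter K), a + c ∈ B := h2
  obtain ⟨a, ha, ha'⟩ := (h3.and hUS).exists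
  exact ha'.2 ha

/-- A coset of the integers which misses a finite set. -/
theorem exists_coset [CharZero K] {S : Set K} (hS : S.Finite) :
    ∃ p : K, ∀ n : ℤ, p + (n : K) ∉ S := by
  by_contra hcon
  push Not at hcon
  have h1 : ∀ k : ℕ, ∃ s : S, ∃ n : ℤ, ((1 / ((k : ℚ) + 2) : ℚ) : K) + (n : K) = s := by
    intro k
    obtain ⟨n, hn⟩ := hcon ((1 / ((k : ℚ) + 2) : ℚ) : K)
    exact ⟨⟨_, hn⟩, n, rfl⟩
  choose s n hsn using h1
  have : Finite S := hS
  obtain ⟨k, l, hkl, hs⟩ := Finite.exists_ne_map_eq_of_infinite s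
  have h2 : ((1 / ((k : ℚ) + 2) : ℚ) : K) + (n k : K) = ((1 / ((l : ℚ) + 2) : ℚ) : K) + (n l : K) := by
    rw [hsn k, hsn l, hs]
  have h3 : (1 / ((k : ℚ) + 2) : ℚ) + (n k : ℚ) = (1 / ((l : ℚ) + 2) : ℚ) + (n l : ℚ) := by
    exact_mod_cast h2
  have hk1 : (0 : ℚ) < 1 / ((k : ℚ) + 2) := by positivity
  have hk2 : 1 / ((k : ℚ) + 2) < 1 := by
    rw [div_lt_one (by positivity)]
    have : (0 : ℚ) ≤ k := by positivity
    linarith
  have hl1 : (0 : ℚ) < 1 / ((l : ℚ) + 2) := by positivity
  have hl2 : 1 / ((l : ℚ) + 2) < 1 := by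
    rw [div_lt_one (by positivity)]
    have : (0 : ℚ) ≤ l := by positivity
    linarith
  have h4 : n k = n l := by
    have a1 : ((n k : ℤ) : ℚ) < (n l : ℚ) + 1 := by linarith
    have a2 : ((n l : ℤ) : ℚ) < (n k : ℚ) + 1 := by linarith
    have b1 : n k < n l + 1 := by exact_mod_cast a1
    have b2 : n l < n k + 1 := by exact_mod_cast a2
    omega
  rw [h4] at h3
  have h5 : (1 / ((k : ℚ) + 2) : ℚ) = 1 / ((l : ℚ) + 2) := by linarith
  have h6 : ((k : ℚ) + 2) = (l : ℚ) + 2 := by
    have := congrArg (fun z : ℚ => 1 / z) h5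
    simpa using this
  apply hkl
  have h7 : (k : ℚ) = l := by linarith
  exact_mod_cast h7

theorem coset_const {B : Set K} {q : K}
    (h : ∀ n : ℤ, (q + (n : K) ∈ B ↔ q + (n : K) + 1 ∈ B)) (n : ℤ) :
    q + (n : K) ∈ B ↔ q ∈ B := by
  induction n using Int.induction_on with
  | zero => simp
  | succ i ih =>
    rw [← ih, h (i : ℤ)]
    push_cast
    rw [add_assoc]
  | pred i ih =>
    rw [← ih, h (-(i : ℤ) - 1)]
    have : q + ((-(i : ℤ) - 1 : ℤ) : K) + 1 = q + ((-(i : ℤ) : ℤ) : K) := by
      push_cast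
      ring
    rw [this]

theorem finite_of_almost_inv [CharZero K] {B : Set K} (h : ∀ c : K, {a | a ∈ B ∧ a + c ∉ B}.Finite)
    {S : Set K} (hS : S.Finite) (hS' : ∀ a, a ∉ S → (a ∈ B ↔ a + 1 ∈ B)) {p : K}
    (hp : ∀ n : ℤ, p + (n : K) ∉ B) : B.Finite := by
  have hinj : ∀ q : K, Function.Injective (fun n : ℤ => q + (n : K)) := fun q m n hmn =>
    Int.cast_injective (add_left_cancel hmn)
  -- finite trace on every coset
  have h1 : ∀ q : K, {n : ℤ | q + (n : K) ∈ B}.Finite := by
    intro q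
    by_contra hinf
    have h2 : ((fun n : ℤ => q + (n : K)) '' {n : ℤ | q + (n : K) ∈ B}).Infinite :=
      Set.Infinite.image ((hinj q).injOn) hinf
    apply h2
    refine (h (p - q)).subset ?_
    rintro _ ⟨n, hn, rfl⟩
    refine ⟨hn, ?_⟩
    have : q + (n : K) + (p - q) = p + (n : K) := by ring
    simp only [this]
    exact hp n
  -- all cosets meeting `B` meet `S`
  have h3 : B ⊆ ⋃ s ∈ S, (fun n : ℤ => s + (n : K)) '' {n : ℤ | s + (n : K) ∈ B} := by
    intro b hb
    by_contra hcon
    have h4 : ∀ n : ℤ, b + (n : K) ∉ S := by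
      intro n hn
      apply hcon
      refine mem_biUnion hn ⟨-n, ?_, ?_⟩
      · have : b + (n : K) + ((-n : ℤ) : K) = b := by push_cast; ring
        simp only [Set.mem_ofPred_eq, this]
        exact hb
      · push_cast
        ring
    have h5 : ∀ n : ℤ, b + (n : K) ∈ B ↔ b ∈ B := coset_const fun n => hS' _ (h4 n)
    have h6 : {n : ℤ | b + (n : K) ∈ B} = Set.univ := by
      rw [eq_univ_iff_forall]
      exact fun n => (h5 n).2 hb
    have h7 := h1 b
    rw [h6] at h7
    exact Set.infinite_univ h7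
  exact (hS.biUnion fun s _ => (h1 s).image _).subset h3

/-- **A set which is neither finite nor cofinite has infinitely many limits at infinity.** -/
theorem om_infinite [CharZero K] {B : Set K} (hB : B.Infinite) (hB' : Bᶜ.Infinite) :
    (Om B).Infinite := by
  intro hfin
  have h1 : ∀ c : K, {a | a ∈ B ∧ a + c ∉ B}.Finite :=
    almost_inv fun C hC g x => om_inv hfin hC g x
  have h2 : ∀ c : K, {a | a ∈ Bᶜ ∧ a + c ∉ Bᶜ}.Finite := by
    intro c
    have h3 := (h1 (-c)).preimage (f := fun a : K => a + c)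
      (fun a _ b _ hab => add_right_cancel hab)
    refine h3.subset ?_
    rintro a ⟨ha, hac⟩
    simp only [mem_compl_iff, not_not] at hac
    refine ⟨hac, ?_⟩
    simpa using ha
  set S := {a | a ∈ B ∧ a + 1 ∉ B} ∪ {a | a ∈ Bᶜ ∧ a + 1 ∉ Bᶜ} with hS
  have hSf : S.Finite := (h1 1).union (h2 1)
  have hS1 : ∀ a, a ∉ S → (a ∈ B ↔ a + 1 ∈ B) := by
    intro a ha
    rw [hS] at ha
    simp only [mem_union, mem_ofPred_eq, mem_compl_iff, not_or, not_and, not_not] at ha
    exact ⟨ha.1, fun h => by_contra fun hc => ha.2 hc h⟩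
  have hS2 : ∀ a, a ∉ S → (a ∈ Bᶜ ↔ a + 1 ∈ Bᶜ) := fun a ha => not_congr (hS1 a ha)
  obtain ⟨p, hp⟩ := exists_coset hSf
  have hc := coset_const (B := B) (q := p) fun n => hS1 _ (hp n)
  by_cases hpB : p ∈ B
  · refine hB' (finite_of_almost_inv h2 hSf hS2 (p := p) fun n => ?_)
    simp only [mem_compl_iff, not_not]
    exact (hc n).2 hpB
  · exact hB (finite_of_almost_inv h1 hSf hS1 (p := p) fun n => fun h => hpB ((hc n).1 h))

/-- **Many patterns.** -/
theorem exists_patterns [CharZero K] {B : Set K} (hB : B.Infinite) (hB' : Bᶜ.Infinite) (m : ℕ) :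
    ∃ C : Fin m → Set K, ∃ A : Finset K,
      (∀ j j', j ≠ j' → ∃ x ∈ A, ¬ (x ∈ C j ↔ x ∈ C j')) ∧
      ∀ j, ∀ A' : Finset K, {a | ∀ x ∈ A', (a + x ∈ B ↔ x ∈ C j)}.Infinite := by
  classical
  set e := (om_infinite hB hB').natEmbedding with he
  have hdiff : ∀ q : Fin m × Fin m, ∃ x : K, q.1 ≠ q.2 →
      ¬ (x ∈ ((e (q.1 : ℕ) : Om B) : Set K) ↔ x ∈ ((e (q.2 : ℕ) : Om B) : Set K)) := by
    intro q
    by_cases hq : q.1 = q.2
    · exact ⟨0, fun h => absurd hq h⟩
    · by_contra hcon
      push Not at hcon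
      have : ((e (q.1 : ℕ) : Om B) : Set K) = ((e (q.2 : ℕ) : Om B) : Set K) :=
        Set.ext fun x => (hcon x).2
      have h1 := e.injective (Subtype.ext this)
      exact hq (Fin.ext h1)
  choose d hd using hdiff
  refine ⟨fun j => ((e (j : ℕ) : Om B) : Set K), Finset.univ.image d, ?_, ?_⟩
  · intro j j' hjj
    exact ⟨d (j, j'), Finset.mem_image_of_mem _ (Finset.mem_univ _), hd (j, j') hjj⟩
  · intro j A'
    obtain ⟨U, hU, hUe⟩ := (e (j : ℕ)).2
    have h1 : ∀ᶠ a in (U : Filter K), ∀ x ∈ A', (a + x ∈ B ↔ x ∈ ((e (j : ℕ) : Om B) : Set K)) := by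
      rw [Filter.eventually_all_finset]
      intro x _
      by_cases hx : x ∈ ((e (j : ℕ) : Om B) : Set K)
      · have h2 : ∀ᶠ a in (U : Filter K), a + x ∈ B := by
          rw [← hUe] at hx
          exact hx
        filter_upwards [h2] with a ha
        exact iff_of_true ha hx
      · have h2 : ¬ ∀ᶠ a in (U : Filter K), a + x ∈ B := by
          intro h3
          apply hx
          rw [← hUe]
          exact h3
        have h4 : ∀ᶠ a in (U : Filter K), ¬ a + x ∈ B := Ultrafilter.eventually_not.2 h2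
        filter_upwards [h4] with a ha
        exact iff_of_false ha hx
    intro hfin
    have h5 : ∀ᶠ a in (U : Filter K),
        a ∉ {a | ∀ x ∈ A', (a + x ∈ B ↔ x ∈ ((e (j : ℕ) : Om B) : Set K))} :=
      hU hfin.eventually_cofinite_notMem
    obtain ⟨a, ha1, ha2⟩ := (h1.and h5).exists
    exact ha2 ha1

end Omega

end Pool.Agent.Lib.MP_097535_lc.NIP
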