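import Pool.Agent.Lib.MP_097535_lc.NIP.Asym
import Pool.Agent.Lib.MP_097535_lc.NIP.Omega

/-!
# The asymmetric case: the tree property of the second kind
-/

set_option autoImplicit false

namespace Pool.Agent.Lib.MP_097535_lc.NIP

open Set Filter

/-- A generic property holds for some tuple whose entries lie in given infinite sets. -/
theorem exists_in {K : Type*} (n : ℕ) (E : Fin n → Set K) (hE : ∀ i, (E i).Infinite)
    {P : (Fin n → K) → Prop} (h : ∀ᶠ u in L K n, P u) : ∃ u, P u ∧ ∀ i, u i ∈ E i := by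
  induction n with
  | zero => exact ⟨Fin.elim0, eventually_zero.mp h, fun i => i.elim0⟩
  | succ n ih =>
    rw [eventually_succ, eventually_cofinite] at h
    obtain ⟨x, hx, hx'⟩ := ((hE 0).sdiff h).nonempty
    simp only [mem_ofPred_eq, not_not] at hx'
    obtain ⟨w, hw, hwe⟩ := ih (fun i => E i.succ) (fun i => hE _) hx'
    refine ⟨_, hw, fun i => ?_⟩
    refine Fin.cases ?_ (fun j => ?_) i
    · simpa using hx
    · simpa using hwe j

/-- **The formula with the tree property of the second kind.** For a definable family of finite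
sets `D_y`, covering every element for all but finitely many parameters, the formula
`for all x in D_w : u + x in D_y iff s + x in D_z` in `y`, with parameters `u, w, z, s`, has arrays
of every finite size whose rows are inconsistent in pairs and all of whose paths are consistent. -/
theorem tp2 {K : Type*} [Field K] [CharZero K] (S : DefSys K)
    (hadd : ∀ (ι : Type) (f g : (ι → K) → K), S.Tm f → S.Tm g → S.Tm fun p => f p + g p)
    {D : K → K → Prop} (hD : S.Def fun q : Fin 2 → K => D (q 0) (q 1))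
    (hfin : ∀ y, {x | D x y}.Finite) (hcof : ∀ x, {y | ¬ D x y}.Finite) (n m : ℕ) :
    ∃ (w : K) (u : Fin n → K) (z s : Fin m → K),
      (∀ i j j', j ≠ j' → ¬ ∃ y, (∀ x, D x w → (D (u i + x) y ↔ D (s j + x) (z j))) ∧
        ∀ x, D x w → (D (u i + x) y ↔ D (s j' + x) (z j'))) ∧
      ∀ f : Fin n → Fin m, ∃ y, ∀ i, ∀ x, D x w →
        (D (u i + x) y ↔ D (s (f i) + x) (z (f i))) := by
  classical
  obtain ⟨B, hB1, hB2, hB⟩ := topo D hfin hcof (by
    intro A P
    have h1 : S.Def fun q : Unit → K => ∃ y, ∀ a ∈ A, (D (q () + a) y ↔ a ∈ P) := by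
      apply S.ex (P := fun y (q : Unit → K) => ∀ a ∈ A, (D (q () + a) y ↔ a ∈ P))
      exact S.finset_all A (P := fun a (q : Option Unit → K) =>
        (D (q (some ()) + a) (q none) ↔ a ∈ P)) fun a =>
          S.iff (S.sub2 hD (hadd _ _ _ (S.var _) (S.const a)) (S.var none)) (S.prop (a ∈ P))
    rcases S.min h1 with h | h
    · right
      rwa [eventually_cofinite] at h
    · left
      rw [eventually_cofinite] at h
      simpa only [not_not] using h)
  obtain ⟨C, A, hCA, hCB⟩ := exists_patterns hB1 hB2 m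
  -- a window containing `A`
  obtain ⟨w, hw⟩ : ∃ w, ∀ x ∈ A, D x w := by
    have h1 : (⋃ a ∈ (A : Set K), {y | ¬ D a y}).Finite :=
      Set.Finite.biUnion A.finite_toSet fun a _ => hcof _
    have hinf : Infinite K := Infinite.of_injective (fun n : ℕ => (n : K)) Nat.cast_injective
    obtain ⟨y, hy⟩ := h1.infinite_compl.nonempty
    refine ⟨y, fun a ha => ?_⟩
    by_contra hcon
    exact hy (mem_biUnion (Finset.mem_coe.2 ha) hcon)
  set W : Finset K := (hfin w).toFinset with hW
  have hWm : ∀ x, x ∈ W ↔ D x w := fun x => by simp [hW]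
  -- the codes of the patterns
  have hcode : ∀ j, ∃ s z : K, ∀ x ∈ W, (D (s + x) z ↔ x ∈ C j) := by
    intro j
    obtain ⟨a, ha⟩ := (hCB j W).nonempty
    have h1 := hB (W.image fun x => a + x)
    have hinf : Infinite K := Infinite.of_injective (fun n : ℕ => (n : K)) Nat.cast_injective
    obtain ⟨t, ht⟩ := h1.infinite_compl.nonempty
    simp only [mem_compl_iff, mem_ofPred_eq, not_not] at ht
    obtain ⟨y, hy⟩ := ht
    refine ⟨t + a, y, fun x hx => ?_⟩
    have h2 := hy (a + x) (Finset.mem_image_of_mem _ hx)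
    rw [add_assoc, h2]
    exact ha x hx
  choose s z hsz using hcode
  -- the generic predicate
  have hdef : ∀ f : Fin n → Fin m, S.Def fun a : Fin n → K =>
      ∀ᶠ t in cofinite, ∃ y, ∀ i, ∀ x ∈ W, (D (t + (a i + x)) y ↔ x ∈ C (f i)) := by
    intro f
    apply S.qf (P := fun t (a : Fin n → K) =>
      ∃ y, ∀ i, ∀ x ∈ W, (D (t + (a i + x)) y ↔ x ∈ C (f i)))
    apply S.ex (P := fun y (q : Option (Fin n) → K) =>
      ∀ i, ∀ x ∈ W, (D (q none + (q (some i) + x)) y ↔ x ∈ C (f i)))
    refine S.fintype_all (P := fun i (q : Option (Option (Fin n)) → K) =>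
      ∀ x ∈ W, (D (q (some none) + (q (some (some i)) + x)) (q none) ↔ x ∈ C (f i))) fun i => ?_
    refine S.finset_all W (P := fun x (q : Option (Option (Fin n)) → K) =>
      (D (q (some none) + (q (some (some i)) + x)) (q none) ↔ x ∈ C (f i))) fun x => ?_
    exact S.iff (S.sub2 hD (hadd _ _ _ (S.var _) (hadd _ _ _ (S.var _) (S.const x)))
      (S.var none)) (S.prop (x ∈ C (f i)))
  have hgen : ∀ f : Fin n → Fin m, ∀ᶠ a in L K n,
      ∀ᶠ t in cofinite, ∃ y, ∀ i, ∀ x ∈ W, (D (t + (a i + x)) y ↔ x ∈ C (f i)) := by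
    intro f
    refine (S.ultra (hdef f)).resolve_right fun hneg => ?_
    obtain ⟨a, ha, hae⟩ := exists_in n
      (fun i => {a | ∀ x ∈ W, (a + x ∈ B ↔ x ∈ C (f i))}) (fun i => hCB (f i) W) hneg
    apply ha
    have h3 := hB ((Finset.univ ×ˢ W).image fun q : Fin n × K => a q.1 + q.2)
    rw [eventually_cofinite]
    refine h3.subset ?_
    intro t ht hcon
    apply ht
    obtain ⟨y, hy⟩ := hcon
    refine ⟨y, fun i x hx => ?_⟩
    rw [hy (a i + x) (Finset.mem_image.2 ⟨(i, x), by simp [hx], rfl⟩)]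
    exact hae i x hx
  have hall : ∀ᶠ a in L K n, ∀ f : Fin n → Fin m,
      ∀ᶠ t in cofinite, ∃ y, ∀ i, ∀ x ∈ W, (D (t + (a i + x)) y ↔ x ∈ C (f i)) := by
    rw [Filter.eventually_all]
    exact hgen
  have hinf : Infinite K := Infinite.of_injective (fun n : ℕ => (n : K)) Nat.cast_injective
  obtain ⟨a, ha⟩ := hall.exists
  have hall2 : ∀ᶠ t in (cofinite : Filter K), ∀ f : Fin n → Fin m,
      ∃ y, ∀ i, ∀ x ∈ W, (D (t + (a i + x)) y ↔ x ∈ C (f i)) := by
    rw [Filter.eventually_all]
    exact ha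
  obtain ⟨t, ht⟩ := hall2.exists
  refine ⟨w, fun i => t + a i, z, s, ?_, ?_⟩
  · rintro i j j' hjj ⟨y, hy1, hy2⟩
    obtain ⟨x, hxA, hx⟩ := hCA j j' hjj
    apply hx
    have hxw := hw x hxA
    have hxW := (hWm x).2 hxw
    rw [← hsz j x hxW, ← hsz j' x hxW, ← hy1 x hxw, ← hy2 x hxw]
  · intro f
    obtain ⟨y, hy⟩ := ht f
    refine ⟨y, fun i x hx => ?_⟩
    have hxW := (hWm x).2 hx
    rw [hsz (f i) x hxW, ← hy i x hxW, add_assoc]

end Pool.Agent.Lib.MP_097535_lc.NIP
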