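import Mathlib

/-!
# Systems of definable predicates and the generic quantifier

An abstract calculus of definable predicates on the powers of an infinite set `K` all of whose
definable subsets are finite or cofinite, with the quantifier ``for all but finitely many x``.
-/

set_option autoImplicit false

namespace Pool.Agent.Lib.MP_097535_lc.NIP

open Filter

/-- A system of terms and definable predicates on the powers of `K`, closed under the Boolean
operations, substitution of terms, existential quantification and the quantifier ``for all but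
finitely many``, in which every definable subset of the line is finite or cofinite. -/
structure DefSys (K : Type*) where
  Tm : ∀ {ι : Type}, ((ι → K) → K) → Prop
  Def : ∀ {ι : Type}, ((ι → K) → Prop) → Prop
  var : ∀ {ι : Type} (i : ι), Tm fun p : ι → K => p i
  const : ∀ {ι : Type} (c : K), Tm fun _ : ι → K => c
  eq : ∀ {ι : Type} {f g : (ι → K) → K}, Tm f → Tm g → Def fun p => f p = g p
  and : ∀ {ι : Type} {P Q : (ι → K) → Prop}, Def P → Def Q → Def fun p => P p ∧ Q p
  not : ∀ {ι : Type} {P : (ι → K) → Prop}, Def P → Def fun p => ¬ P p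
  subst : ∀ {ι κ : Type} {P : (κ → K) → Prop} {F : (ι → K) → κ → K}, Def P →
    (∀ j, Tm fun p => F p j) → Def fun p => P (F p)
  ex : ∀ {ι : Type} {P : K → (ι → K) → Prop},
    Def (fun q : Option ι → K => P (q none) fun i => q (some i)) → Def fun p => ∃ x, P x p
  qf : ∀ {ι : Type} {P : K → (ι → K) → Prop},
    Def (fun q : Option ι → K => P (q none) fun i => q (some i)) →
      Def fun p => ∀ᶠ x in cofinite, P x p
  min : ∀ {P : (Unit → K) → Prop}, Def P →
    (∀ᶠ x in cofinite, P fun _ => x) ∨ ∀ᶠ x in cofinite, ¬ P fun _ => x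

/-- The iterated filter of cofinite sets on the tuples of length `n`. -/
def L (K : Type*) : (n : ℕ) → Filter (Fin n → K)
  | 0 => pure Fin.elim0
  | n + 1 => (cofinite : Filter K).bind fun x => (L K n).map (Fin.cons (α := fun _ => K) x)

section L

variable {K : Type*}

theorem eventually_zero {P : (Fin 0 → K) → Prop} :
    (∀ᶠ u in L K 0, P u) ↔ P Fin.elim0 := by
  unfold L
  exact eventually_pure

theorem eventually_succ {n : ℕ} {P : (Fin (n + 1) → K) → Prop} :
    (∀ᶠ u in L K (n + 1), P u) ↔
      ∀ᶠ x in cofinite, ∀ᶠ w in L K n, P (Fin.cons (α := fun _ => K) x w) := by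
  rw [L, eventually_bind]
  rfl

instance neBot_L [Infinite K] (n : ℕ) : (L K n).NeBot := by
  induction n with
  | zero => rw [L]; infer_instance
  | succ n ih =>
    rw [← Filter.frequently_true_iff_neBot, Filter.Frequently, eventually_succ]
    intro h
    obtain ⟨x, hx⟩ := h.exists
    obtain ⟨w, hw⟩ := hx.exists
    exact hw trivial

/-- Generic tuples are injective. -/
theorem eventually_injective (n : ℕ) : ∀ᶠ u in L K n, Function.Injective u := by
  have key : ∀ n : ℕ, ∀ s : Set K, s.Finite →
      ∀ᶠ u in L K n, Function.Injective u ∧ ∀ i, u i ∉ s := by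
    intro n
    induction n with
    | zero =>
      intro s _
      rw [eventually_zero]
      exact ⟨fun a => a.elim0, fun a => a.elim0⟩
    | succ n ih =>
      intro s hs
      rw [eventually_succ]
      filter_upwards [hs.eventually_cofinite_notMem] with x hx
      filter_upwards [ih (insert x s) (hs.insert x)] with w hw
      refine ⟨?_, ?_⟩
      · rw [Fin.cons_injective_iff]
        refine ⟨?_, hw.1⟩
        rintro ⟨i, hi⟩
        exact hw.2 i (by rw [hi]; exact Set.mem_insert x s)
      · intro i
        refine Fin.cases ?_ (fun j => ?_) i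
        · simpa using hx
        · intro h
          exact hw.2 j (Set.mem_insert_of_mem x (by simpa using h))
  exact (key n ∅ Set.finite_empty).mono fun u hu => hu.1

/-- A generic property holds for some tuple whose entries lie in a given infinite and coinfinite
set exactly as prescribed. -/
theorem exists_prescribed {B : Set K} (hB : B.Infinite) (hB' : Bᶜ.Infinite) (n : ℕ)
    (ε : Fin n → Prop) {P : (Fin n → K) → Prop} (h : ∀ᶠ u in L K n, P u) :
    ∃ u, P u ∧ ∀ i, (u i ∈ B ↔ ε i) := by
  induction n with
  | zero => exact ⟨Fin.elim0, eventually_zero.mp h, fun i => i.elim0⟩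
  | succ n ih =>
    rw [eventually_succ] at h
    have : ∃ x, (∀ᶠ w in L K n, P (Fin.cons (α := fun _ => K) x w)) ∧ (x ∈ B ↔ ε 0) := by
      rw [eventually_cofinite] at h
      by_cases h0 : ε 0
      · obtain ⟨x, hx, hx'⟩ := (hB.sdiff h).nonempty
        exact ⟨x, by simpa using hx', iff_of_true hx h0⟩
      · obtain ⟨x, hx, hx'⟩ := (hB'.sdiff h).nonempty
        exact ⟨x, by simpa using hx', iff_of_false hx h0⟩
    obtain ⟨x, hx, hxe⟩ := this
    obtain ⟨w, hw, hwe⟩ := ih (fun i => ε i.succ) hx
    refine ⟨_, hw, fun i => ?_⟩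
    refine Fin.cases ?_ (fun j => ?_) i
    · simpa using hxe
    · simpa using hwe j

end L

namespace DefSys

variable {K : Type*} (S : DefSys K) {ι κ : Type}

theorem congr {P Q : (ι → K) → Prop} (hP : S.Def P) (h : ∀ p, P p ↔ Q p) : S.Def Q := by
  have : P = Q := funext fun p => propext (h p)
  rwa [this] at hP

theorem or {P Q : (ι → K) → Prop} (hP : S.Def P) (hQ : S.Def Q) : S.Def fun p => P p ∨ Q p :=
  S.congr (S.not (S.and (S.not hP) (S.not hQ))) fun p => by tauto

theorem imp {P Q : (ι → K) → Prop} (hP : S.Def P) (hQ : S.Def Q) : S.Def fun p => P p → Q p :=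
  S.congr (S.not (S.and hP (S.not hQ))) fun p => by tauto

theorem iff {P Q : (ι → K) → Prop} (hP : S.Def P) (hQ : S.Def Q) : S.Def fun p => P p ↔ Q p :=
  S.congr (S.and (S.imp hP hQ) (S.imp hQ hP)) fun p => by tauto

theorem all {P : K → (ι → K) → Prop}
    (h : S.Def (fun q : Option ι → K => P (q none) fun i => q (some i))) :
    S.Def fun p => ∀ x, P x p :=
  S.congr (S.not (S.ex (P := fun x p => ¬ P x p) (S.not h))) fun p => by simp

theorem top [Nonempty K] : S.Def fun _ : ι → K => True := by
  obtain ⟨c⟩ := ‹Nonempty K›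
  exact S.congr (S.eq (S.const c) (S.const c)) fun p => by simp

theorem bot [Nonempty K] : S.Def fun _ : ι → K => False :=
  S.congr (S.not S.top) fun p => by simp

theorem prop [Nonempty K] (a : Prop) : S.Def fun _ : ι → K => a := by
  by_cases h : a
  · exact S.congr S.top fun p => by simp [h]
  · exact S.congr S.bot fun p => by simp [h]

/-- Families of predicates. -/
def Fam (X : (ι → K) → (κ → K) → Prop) : Prop :=
  S.Def fun q : ι ⊕ κ → K => X (fun i => q (.inl i)) fun j => q (.inr j)

/-- Substitution in families. -/
theorem Fam.subst {S : DefSys K} {ι' : Type} {X : (ι → K) → (κ → K) → Prop} (h : S.Fam X)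
    {F : (ι' → K) → ι → K} {G : (ι' → K) → κ → K} (hF : ∀ j, S.Tm fun p => F p j)
    (hG : ∀ j, S.Tm fun p => G p j) : S.Def fun p => X (F p) (G p) := by
  refine S.subst (P := fun q : ι ⊕ κ → K => X (fun i => q (.inl i)) fun j => q (.inr j))
    (F := fun p => Sum.elim (F p) (G p)) h ?_
  rintro (j | j)
  · exact hF j
  · exact hG j

theorem tm_cons {n : ℕ} {f : (ι → K) → K} {g : (ι → K) → Fin n → K} (hf : S.Tm f)
    (hg : ∀ j, S.Tm fun p => g p j) (j : Fin (n + 1)) :
    S.Tm fun p => Fin.cons (α := fun _ => K) (f p) (g p) j := by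
  refine Fin.cases ?_ (fun k => ?_) j
  · simpa using hf
  · simpa using hg k

theorem tm_insert {n : ℕ} {i : Fin (n + 1)} {f : (ι → K) → K} {g : (ι → K) → Fin n → K}
    (hf : S.Tm f) (hg : ∀ j, S.Tm fun p => g p j) (j : Fin (n + 1)) :
    S.Tm fun p => i.insertNth (α := fun _ => K) (f p) (g p) j := by
  refine Fin.succAboveCases i ?_ (fun k => ?_) j
  · simpa using hf
  · simpa using hg k

/-- Definability of the existential quantifier over tuples. -/
theorem exs {n : ℕ} {X : (ι → K) → (Fin n → K) → Prop} (h : S.Fam X) :
    S.Def fun p => ∃ u, X p u := by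
  induction n generalizing ι with
  | zero =>
    have := Fam.subst (F := fun p : ι → K => p) (G := fun _ => Fin.elim0) h (fun j => S.var j)
      (fun j => j.elim0)
    refine S.congr this fun p => ⟨fun hp => ⟨_, hp⟩, ?_⟩
    rintro ⟨u, hu⟩
    rwa [Subsingleton.elim u Fin.elim0] at hu
  | succ n ih =>
    have h1 : S.Def fun p : ι → K => ∃ x : K, ∃ w : Fin n → K,
        X p (Fin.cons (α := fun _ => K) x w) := by
      apply S.ex (P := fun x p => ∃ w : Fin n → K, X p (Fin.cons (α := fun _ => K) x w))
      apply ih (X := fun (q : Option ι → K) w =>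
        X (fun i => q (some i)) (Fin.cons (α := fun _ => K) (q none) w))
      exact Fam.subst h (fun j => S.var _) (S.tm_cons (S.var _) (fun j => S.var _))
    refine S.congr h1 fun p => ⟨?_, ?_⟩
    · rintro ⟨x, w, hw⟩
      exact ⟨_, hw⟩
    · rintro ⟨u, hu⟩
      exact ⟨u 0, Fin.tail u, by rwa [Fin.cons_self_tail]⟩

/-- Definability of the generic quantifier over tuples. -/
theorem large {n : ℕ} {X : (ι → K) → (Fin n → K) → Prop} (h : S.Fam X) :
    S.Def fun p => ∀ᶠ u in L K n, X p u := by
  induction n generalizing ι with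
  | zero =>
    have := Fam.subst (F := fun p : ι → K => p) (G := fun _ => Fin.elim0) h (fun j => S.var j)
      (fun j => j.elim0)
    refine S.congr this fun p => ?_
    rw [eventually_zero]
  | succ n ih =>
    have h1 : S.Def fun p : ι → K => ∀ᶠ x in cofinite, ∀ᶠ w in L K n,
        X p (Fin.cons (α := fun _ => K) x w) := by
      apply S.qf (P := fun x p => ∀ᶠ w in L K n, X p (Fin.cons (α := fun _ => K) x w))
      apply ih (X := fun (q : Option ι → K) w =>
        X (fun i => q (some i)) (Fin.cons (α := fun _ => K) (q none) w))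
      exact Fam.subst h (fun j => S.var _) (S.tm_cons (S.var _) (fun j => S.var _))
    refine S.congr h1 fun p => ?_
    rw [eventually_succ]

/-- The minimality in terms of predicates on `K`. -/
theorem min' {ι : Type} (i : ι) {P : K → Prop} (h : S.Def fun q : ι → K => P (q i)) :
    (∀ᶠ x in cofinite, P x) ∨ ∀ᶠ x in cofinite, ¬ P x :=
  S.min (P := fun q => P (q ())) (S.subst (P := fun q : ι → K => P (q i))
    (F := fun (q : Unit → K) _ => q ()) h fun _ => S.var _)

/-- The generic filter is complete for definable predicates. -/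
theorem ultra {n : ℕ} {X : (Fin n → K) → Prop} (h : S.Def X) :
    (∀ᶠ u in L K n, X u) ∨ ∀ᶠ u in L K n, ¬ X u := by
  induction n with
  | zero =>
    rw [eventually_zero, eventually_zero]
    exact em _
  | succ n ih =>
    have h1 : S.Def fun q : Unit → K => ∀ᶠ w in L K n, X (Fin.cons (α := fun _ => K) (q ()) w) := by
      apply S.large (X := fun (q : Unit → K) w => X (Fin.cons (α := fun _ => K) (q ()) w))
      exact S.subst h (S.tm_cons (S.var _) (fun j => S.var _))
    rcases S.min h1 with h2 | h2
    · left
      rw [eventually_succ]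
      exact h2
    · right
      rw [eventually_succ]
      filter_upwards [h2] with x hx
      refine (ih (X := fun w => X (Fin.cons (α := fun _ => K) x w)) ?_).resolve_left hx
      exact S.subst h (S.tm_cons (S.const _) (fun j => S.var _))

end DefSys

end Pool.Agent.Lib.MP_097535_lc.NIP
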