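import Pool.Agent.Lib.MP_097535_lc.Basic
import Pool.Agent.Lib.MP_097535_lc.NIP.Sys

/-!
# Definable predicates of a minimal field: closure properties

Closure properties of predicates that are definable with parameters: Boolean operations,
substitution of variables and constants, existential quantification, and, for a minimal additive
group, the quantifier ``for all but finitely many``.
-/

set_option autoImplicit false

namespace Pool.Agent.Lib.MP_097535_lc.NIP

open Set FirstOrder FirstOrder.Language Filter

section General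

variable {K : Type*} (L : Language) [L.Structure K]

/-- The predicate `P` on tuples is definable in the language `L` with parameters from `K`. -/
def DefP {ι : Type} (P : (ι → K) → Prop) : Prop :=
  (univ : Set K).Definable L {v | P v}

variable {L}

theorem DefP.congr {ι : Type} {P Q : (ι → K) → Prop} (hP : DefP L P) (h : ∀ v, P v ↔ Q v) :
    DefP L Q := by
  have : P = Q := funext fun v => propext (h v)
  rwa [← this]

theorem DefP.and {ι : Type} {P Q : (ι → K) → Prop} (hP : DefP L P) (hQ : DefP L Q) :
    DefP L (fun v => P v ∧ Q v) :=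
  Definable.inter hP hQ

theorem DefP.not {ι : Type} {P : (ι → K) → Prop} (hP : DefP L P) : DefP L (fun v => ¬ P v) :=
  Definable.compl hP

theorem DefP.comp {ι κ : Type} {P : (κ → K) → Prop} (hP : DefP L P) (f : κ → ι) :
    DefP L (fun p : ι → K => P (fun j => p (f j))) :=
  Definable.preimage_comp f hP

/-- Terms with parameters. -/
def TmP (L : Language) [L.Structure K] {ι : Type} (f : (ι → K) → K) : Prop :=
  ∃ φ : L[[(univ : Set K)]].Term ι, ∀ p, f p = φ.realize p

theorem TmP.var {ι : Type} (i : ι) : TmP L (fun p : ι → K => p i) :=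
  ⟨Term.var i, fun _ => rfl⟩

theorem TmP.const {ι : Type} (c : K) : TmP L (fun _ : ι → K => c) :=
  ⟨(L.con (⟨c, mem_univ c⟩ : (univ : Set K))).term, fun p => by simp⟩

theorem TmP.eq {ι : Type} {f g : (ι → K) → K} (hf : TmP L f) (hg : TmP L g) :
    DefP L (fun p => f p = g p) := by
  obtain ⟨φ, hφ⟩ := hf
  obtain ⟨ψ, hψ⟩ := hg
  refine ⟨φ.equal ψ, ?_⟩
  ext p
  simp [hφ, hψ]

theorem DefP.substT {ι κ : Type} {P : (κ → K) → Prop} {F : (ι → K) → κ → K} (hP : DefP L P)
    (hF : ∀ j, TmP L fun p => F p j) : DefP L (fun p : ι → K => P (F p)) := by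
  obtain ⟨φ, hφ⟩ := hP
  choose τ hτ using hF
  refine ⟨BoundedFormula.subst φ τ, ?_⟩
  have h1 : ∀ v, P v ↔ φ.Realize v := by
    intro v
    have := Set.ext_iff.1 hφ v
    exact this
  ext p
  rw [Set.mem_ofPred_eq, Set.mem_ofPred_eq, h1, Formula.Realize, Formula.Realize,
    BoundedFormula.realize_subst]
  have : F p = fun j => (τ j).realize p := funext fun j => hτ j p
  rw [this]

theorem DefP.subst {ι κ : Type} {P : (κ → K) → Prop} (hP : DefP L P) (f : κ → ι ⊕ K) :
    DefP L (fun p : ι → K => P (fun j => Sum.elim p id (f j))) := by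
  refine DefP.substT hP fun j => ?_
  rcases f j with i | k
  · exact TmP.var i
  · exact TmP.const k

theorem DefP.ex {ι : Type} {P : K → (ι → K) → Prop}
    (h : DefP L (fun q : Option ι → K => P (q none) (fun i => q (some i)))) :
    DefP L (fun p : ι → K => ∃ x, P x p) := by
  have h1 := (Definable.preimage_comp
    (fun o : Option ι => (o.elim (Sum.inr ()) Sum.inl : ι ⊕ Unit)) h).exists_of_finite
  refine DefP.congr h1 fun p => ?_
  constructor
  · rintro ⟨u, hu⟩
    exact ⟨u (), hu⟩
  · rintro ⟨x, hx⟩
    exact ⟨fun _ => x, hx⟩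

/-- A definable predicate on an infinite group with definable addition, all of whose definable
subsets are finite or cofinite: the cofinite quantifier preserves definability. -/
theorem DefP.qf [AddCommGroup K] [Infinite K]
    (hadd : DefP L (fun v : Fin 3 → K => v 0 + v 1 = v 2))
    (hmin : ∀ P : (Unit → K) → Prop, DefP L P →
      (∀ᶠ x in (cofinite : Filter K), P (fun _ => x)) ∨
        (∀ᶠ x in (cofinite : Filter K), ¬ P (fun _ => x)))
    {ι : Type} {P : K → (ι → K) → Prop}
    (h : DefP L (fun q : Option ι → K => P (q none) (fun i => q (some i)))) :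
    DefP L (fun p : ι → K => ∀ᶠ x in (cofinite : Filter K), P x p) := by
  have h1 : DefP L (fun w : (ι ⊕ Unit) ⊕ Fin 2 → K =>
      P (w (Sum.inr 0)) (fun i => w (Sum.inl (Sum.inl i)))) :=
    DefP.comp h (fun o => (o.elim (Sum.inr 0) (fun i => Sum.inl (Sum.inl i)) :
      (ι ⊕ Unit) ⊕ Fin 2))
  have h2 : DefP L (fun w : (ι ⊕ Unit) ⊕ Fin 2 → K =>
      P (w (Sum.inr 1)) (fun i => w (Sum.inl (Sum.inl i)))) :=
    DefP.comp h (fun o => (o.elim (Sum.inr 1) (fun i => Sum.inl (Sum.inl i)) :
      (ι ⊕ Unit) ⊕ Fin 2))
  have h3 : DefP L (fun w : (ι ⊕ Unit) ⊕ Fin 2 → K =>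
      w (Sum.inr 0) + w (Sum.inr 1) = w (Sum.inl (Sum.inr ()))) :=
    DefP.comp hadd (fun j => ((![Sum.inr 0, Sum.inr 1, Sum.inl (Sum.inr ())] :
      Fin 3 → (ι ⊕ Unit) ⊕ Fin 2) j))
  have h4 := ((h1.and (h2.and h3)).exists_of_finite).forall_of_finite
  refine DefP.congr h4 fun p => ?_
  have hX : DefP L (fun x : Unit → K => P (x ()) p) :=
    (DefP.subst h (fun o : Option ι => o.elim (Sum.inl ()) (fun i => Sum.inr (p i)))).congr
      (fun v => Iff.rfl)
  constructor
  · intro hs
    refine (hmin _ hX).resolve_right fun hfin => ?_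
    have hf : {x | P x p}.Finite := by
      have := hfin
      rw [Filter.eventually_cofinite] at this
      simpa using this
    refine Set.infinite_univ (α := K) ((hf.add hf).subset ?_)
    intro z _
    obtain ⟨u, hu1, hu2, hu3⟩ := hs (fun _ => z)
    exact ⟨u 0, hu1, u 1, hu2, hu3⟩
  · intro hc z
    have hc2 : ∀ᶠ x in (cofinite : Filter K), P (z () - x) p := by
      have hinj : Function.Injective (fun x : K => z () - x) := sub_right_injective
      exact hinj.tendsto_cofinite.eventually hc
    obtain ⟨x, hx1, hx2⟩ := (hc.and hc2).exists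
    refine ⟨![x, z () - x], hx1, hx2, ?_⟩
    show x + (z () - x) = z ()
    abel

end General

section Field

variable {K : Type*} [Field K]

/-- Definability in the language of rings, with parameters. -/
def DefR {ι : Type} (P : (ι → K) → Prop) : Prop :=
  letI : FirstOrder.Ring.CompatibleRing K := FirstOrder.Ring.compatibleRingOfRing K
  DefP Language.ring P

theorem DefR.zero {ι : Type} (p : MvPolynomial ι K) :
    DefR (fun v : ι → K => MvPolynomial.eval v p = 0) := by
  let _ : FirstOrder.Ring.CompatibleRing K := FirstOrder.Ring.compatibleRingOfRing K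
  have h1 := FirstOrder.Ring.mvPolynomial_zeroLocus_definable
    (K := K) ({p} : Finset (MvPolynomial ι K))
  have h2 := h1.mono (Set.subset_univ _)
  refine DefP.congr (P := fun v => v ∈ MvPolynomial.zeroLocus K
    (Ideal.span ((({p} : Finset (MvPolynomial ι K)) : Set (MvPolynomial ι K))))) h2 fun v => ?_
  simp [MvPolynomial.zeroLocus_span, MvPolynomial.aeval_eq_eval]

theorem DefR.add3 : DefR (fun v : Fin 3 → K => v 0 + v 1 = v 2) := by
  have h := DefR.zero (K := K) (MvPolynomial.X (0 : Fin 3) + MvPolynomial.X 1 - MvPolynomial.X 2)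
  simpa [DefR, sub_eq_zero] using h

theorem DefR.min (hK : IsMinimalField K) (P : (Unit → K) → Prop) (hP : DefR P) :
    (∀ᶠ x in (cofinite : Filter K), P (fun _ => x)) ∨
      (∀ᶠ x in (cofinite : Filter K), ¬ P (fun _ => x)) := by
  let _ : FirstOrder.Ring.CompatibleRing K := FirstOrder.Ring.compatibleRingOfRing K
  have h1 : Set.Definable₁ (Set.univ : Set K) Language.ring {x | P (fun _ => x)} :=
    DefP.comp hP (fun _ : Unit => (0 : Fin 1))
  rcases hK.2 _ h1 with h | h
  · right
    rw [Filter.eventually_cofinite]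
    simpa using h
  · left
    rw [Filter.eventually_cofinite]
    exact h

/-- Ring terms with parameters. -/
def TmR {ι : Type} (f : (ι → K) → K) : Prop :=
  letI : FirstOrder.Ring.CompatibleRing K := FirstOrder.Ring.compatibleRingOfRing K
  TmP Language.ring f

theorem TmR.add {ι : Type} {f g : (ι → K) → K} (hf : TmR f) (hg : TmR g) :
    TmR fun p => f p + g p := by
  let _ : FirstOrder.Ring.CompatibleRing K := FirstOrder.Ring.compatibleRingOfRing K
  obtain ⟨φ, hφ⟩ := hf
  obtain ⟨ψ, hψ⟩ := hg
  refine ⟨Term.func (Sum.inl FirstOrder.Ring.addFunc) ![φ, ψ], fun p => ?_⟩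
  have h : (Term.func (Sum.inl FirstOrder.Ring.addFunc) ![φ, ψ] :
      Language.ring[[(univ : Set K)]].Term ι).realize p =
      Language.Structure.funMap (M := K) FirstOrder.Ring.addFunc ![φ.realize p, ψ.realize p] := by
    rw [Term.realize_func]
    have h2 : (fun i => Term.realize p ((![φ, ψ] : Fin 2 → _) i)) =
        ![φ.realize p, ψ.realize p] := by
      funext i
      fin_cases i <;> rfl
    rw [h2]
    rfl
  rw [h, FirstOrder.Ring.CompatibleRing.funMap_add]
  show f p + g p = φ.realize p + ψ.realize p
  rw [hφ, hψ]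

theorem TmR.mul {ι : Type} {f g : (ι → K) → K} (hf : TmR f) (hg : TmR g) :
    TmR fun p => f p * g p := by
  let _ : FirstOrder.Ring.CompatibleRing K := FirstOrder.Ring.compatibleRingOfRing K
  obtain ⟨φ, hφ⟩ := hf
  obtain ⟨ψ, hψ⟩ := hg
  refine ⟨Term.func (Sum.inl FirstOrder.Ring.mulFunc) ![φ, ψ], fun p => ?_⟩
  have h : (Term.func (Sum.inl FirstOrder.Ring.mulFunc) ![φ, ψ] :
      Language.ring[[(univ : Set K)]].Term ι).realize p =
      Language.Structure.funMap (M := K) FirstOrder.Ring.mulFunc ![φ.realize p, ψ.realize p] := by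
    rw [Term.realize_func]
    have h2 : (fun i => Term.realize p ((![φ, ψ] : Fin 2 → _) i)) =
        ![φ.realize p, ψ.realize p] := by
      funext i
      fin_cases i <;> rfl
    rw [h2]
    rfl
  rw [h, FirstOrder.Ring.CompatibleRing.funMap_mul]
  show f p * g p = φ.realize p * ψ.realize p
  rw [hφ, hψ]

theorem TmR.var {ι : Type} (i : ι) : TmR (fun p : ι → K => p i) :=
  ⟨Term.var i, fun _ => rfl⟩

theorem TmR.const {ι : Type} (c : K) : TmR (fun _ : ι → K => c) := by
  let _ : FirstOrder.Ring.CompatibleRing K := FirstOrder.Ring.compatibleRingOfRing K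
  exact TmP.const c

/-- Polynomial functions are terms. -/
theorem TmR.eval {ι : Type} (q : MvPolynomial ι K) : TmR fun p => MvPolynomial.eval p q := by
  induction q using MvPolynomial.induction_on with
  | C a => simpa using TmR.const (ι := ι) a
  | add f g hf hg => simpa using TmR.add hf hg
  | mul_X f i hf => simpa using TmR.mul hf (TmR.var i)

/-- Polynomial functions of terms are terms. -/
theorem TmR.eval' {ι κ : Type} (q : MvPolynomial κ K) {F : (ι → K) → κ → K}
    (hF : ∀ j, TmR fun p => F p j) : TmR fun p => MvPolynomial.eval (F p) q := by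
  induction q using MvPolynomial.induction_on with
  | C a => simpa using TmR.const (ι := ι) a
  | add f g hf hg => simpa using TmR.add hf hg
  | mul_X f i hf => simpa using TmR.mul hf (hF i)

/-- The definable predicates of a minimal field form a system of definable predicates. -/
def sys (hK : IsMinimalField K) : DefSys K where
  Tm := TmR
  Def := DefR
  var := TmR.var
  const := TmR.const
  eq := fun hf hg => by
    let _ : FirstOrder.Ring.CompatibleRing K := FirstOrder.Ring.compatibleRingOfRing K
    exact TmP.eq hf hg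
  and := fun hP hQ => by
    let _ : FirstOrder.Ring.CompatibleRing K := FirstOrder.Ring.compatibleRingOfRing K
    exact DefP.and hP hQ
  not := fun hP => by
    let _ : FirstOrder.Ring.CompatibleRing K := FirstOrder.Ring.compatibleRingOfRing K
    exact DefP.not hP
  subst := fun hP hF => by
    let _ : FirstOrder.Ring.CompatibleRing K := FirstOrder.Ring.compatibleRingOfRing K
    exact DefP.substT hP hF
  ex := fun h => by
    let _ : FirstOrder.Ring.CompatibleRing K := FirstOrder.Ring.compatibleRingOfRing K
    exact DefP.ex h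
  qf := fun h => by
    let _ : FirstOrder.Ring.CompatibleRing K := FirstOrder.Ring.compatibleRingOfRing K
    have : Infinite K := hK.1
    have h3 : DefP Language.ring (fun v : Fin 3 → K => v 0 + v 1 = v 2) := DefR.add3
    exact DefP.qf h3 (DefR.min hK) h
  min := fun hP => DefR.min hK _ hP

theorem sys_add (hK : IsMinimalField K) (ι : Type) (f g : (ι → K) → K) (hf : (sys hK).Tm f)
    (hg : (sys hK).Tm g) : (sys hK).Tm fun p => f p + g p :=
  TmR.add hf hg

theorem sys_mul (hK : IsMinimalField K) (ι : Type) (f g : (ι → K) → K) (hf : (sys hK).Tm f)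
    (hg : (sys hK).Tm g) : (sys hK).Tm fun p => f p * g p :=
  TmR.mul hf hg

theorem sys_neg (hK : IsMinimalField K) (ι : Type) (f : (ι → K) → K) (hf : (sys hK).Tm f) :
    (sys hK).Tm fun p => - f p := by
  have h : (sys hK).Tm fun p => (-1) * f p := TmR.mul (TmR.const (-1)) hf
  simpa using h

theorem sys_sub (hK : IsMinimalField K) (ι : Type) (f g : (ι → K) → K) (hf : (sys hK).Tm f)
    (hg : (sys hK).Tm g) : (sys hK).Tm fun p => f p - g p := by
  have h : (sys hK).Tm fun p => f p + - g p := sys_add hK ι _ _ hf (sys_neg hK ι _ hg)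
  simpa [sub_eq_add_neg] using h

theorem sys_eval (hK : IsMinimalField K) {ι κ : Type} (q : MvPolynomial κ K)
    {F : (ι → K) → κ → K} (hF : ∀ j, (sys hK).Tm fun p => F p j) :
    (sys hK).Tm fun p => MvPolynomial.eval (F p) q :=
  TmR.eval' q hF

/-- The definable predicates are those given by formulas with parameters. -/
theorem sys_def_iff (hK : IsMinimalField K) {ι : Type} (P : (ι → K) → Prop) :
    letI : FirstOrder.Ring.CompatibleRing K := FirstOrder.Ring.compatibleRingOfRing K
    (sys hK).Def P ↔ ∃ φ : Language.ring[[(Set.univ : Set K)]].Formula ι,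
      ∀ v, P v ↔ φ.Realize v := by
  let _ : FirstOrder.Ring.CompatibleRing K := FirstOrder.Ring.compatibleRingOfRing K
  constructor
  · rintro ⟨φ, hφ⟩
    exact ⟨φ, fun v => Set.ext_iff.1 hφ v⟩
  · rintro ⟨φ, hφ⟩
    exact ⟨φ, Set.ext fun v => hφ v⟩

end Field

end Pool.Agent.Lib.MP_097535_lc.NIP
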