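import Pool.Agent.Lib.MP_097535_lc.NIP.Sym
import Pool.Agent.Lib.MP_097535_lc.EL.Perf

/-!
# The symmetric case: algebraically closed fields

A field of characteristic zero with a symmetric system of definable predicates which contains the
polynomial relations is algebraically closed.
-/

set_option autoImplicit false

namespace Pool.Agent.Lib.MP_097535_lc.NIP

open Filter Module

namespace DefSys

section ring

variable {K : Type*} [Field K] (S : DefSys K) {ι κ : Type}

/-- The terms are closed under addition and multiplication. -/
structure IsRing : Prop where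
  add : ∀ {ι : Type} {f g : (ι → K) → K}, S.Tm f → S.Tm g → S.Tm fun p => f p + g p
  mul : ∀ {ι : Type} {f g : (ι → K) → K}, S.Tm f → S.Tm g → S.Tm fun p => f p * g p

variable {S}

theorem IsRing.sum (hR : S.IsRing) {α : Type*} (s : Finset α) {f : α → (ι → K) → K}
    (h : ∀ a ∈ s, S.Tm (f a)) : S.Tm fun p => ∑ a ∈ s, f a p := by
  classical
  induction s using Finset.induction_on with
  | empty => simpa using S.const 0
  | insert a s ha ih =>
    simp only [Finset.sum_insert ha]
    exact hR.add (h a (Finset.mem_insert_self _ _))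
      (ih fun b hb => h b (Finset.mem_insert_of_mem hb))

theorem forall_fin {n : ℕ} {P : Fin n → (ι → K) → Prop} (h : ∀ j, S.Def (P j)) :
    S.Def fun p => ∀ j, P j p := by
  induction n with
  | zero => exact S.congr S.top fun p => by simp
  | succ n ih =>
    refine S.congr (S.and (h 0) (ih (P := fun j => P j.succ) fun j => h j.succ)) fun p => ?_
    constructor
    · rintro ⟨h1, h2⟩ j
      exact Fin.cases h1 h2 j
    · intro h
      exact ⟨h 0, fun j => h j.succ⟩

end ring

section ext

variable {K : Type*} [Field K] {S : DefSys K} (hR : S.IsRing) {ι κ : Type}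
  {F : Type*} [Field F] [Algebra K F] {n : ℕ} (b : Basis (Fin n) K F)

/-- Functions with values in a finite extension whose coordinates are terms. -/
def TmL (S : DefSys K) (b : Basis (Fin n) K F) (g : (ι → K) → F) : Prop :=
  ∀ j, S.Tm fun p => b.repr (g p) j

theorem TmL.const (S : DefSys K) (b : Basis (Fin n) K F) (c : F) :
    TmL S b fun _ : ι → K => c := fun _ => S.const _

include hR in
theorem TmL.mul {g h : (ι → K) → F} (hg : TmL S b g) (hh : TmL S b h) :
    TmL S b fun p => g p * h p := by
  intro j
  have key : ∀ x y : F, b.repr (x * y) j =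
      ∑ i, ∑ k, b.repr x i * (b.repr y k * b.repr (b i * b k) j) := by
    intro x y
    conv_lhs => rw [← b.sum_repr x, ← b.sum_repr y, Finset.sum_mul]
    simp only [Finset.mul_sum, map_sum, Finsupp.finsetSum_apply, smul_mul_assoc,
      mul_smul_comm, map_smul, Finsupp.smul_apply, smul_eq_mul]
    refine Finset.sum_congr rfl fun i _ => Finset.sum_congr rfl fun k _ => ?_
    ring
  have key2 : (fun p => b.repr (g p * h p) j) = fun p =>
      ∑ i, ∑ k, b.repr (g p) i * (b.repr (h p) k * b.repr (b i * b k) j) :=
    funext fun p => key _ _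
  rw [key2]
  refine hR.sum _ fun i _ => hR.sum _ fun k _ => ?_
  exact hR.mul (hg i) (hR.mul (hh k) (S.const _))

include hR in
theorem TmL.pow {g : (ι → K) → F} (hg : TmL S b g) (m : ℕ) : TmL S b fun p => g p ^ m := by
  induction m with
  | zero => simpa using TmL.const S b 1
  | succ m ih =>
    simp only [pow_succ]
    exact TmL.mul hR b ih hg

include hR in
/-- The image of `β z ^ m` is generic. -/
theorem generic_pow [Infinite K] (hS : S.Sym) {m : ℕ} (hm : m ≠ 0) {β : F} (hβ : β ≠ 0) :
    ∀ᶠ w in L K n, ∃ v : Fin n → K, β * (b.equivFun.symm v) ^ m = b.equivFun.symm w := by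
  refine S.claim hS n (fun v w => β * (b.equivFun.symm v) ^ m = b.equivFun.symm w) ?_ ?_ ?_
  · have h1 : ∀ j, S.Tm fun q : Fin n ⊕ Fin n → K =>
        b.repr (β * (b.equivFun.symm fun i => q (.inl i)) ^ m) j := by
      refine TmL.mul hR b (TmL.const S b β) (TmL.pow hR b ?_ m)
      intro j
      have : ∀ q : Fin n ⊕ Fin n → K,
          b.repr (b.equivFun.symm fun i => q (.inl i)) j = q (.inl j) := by
        intro q
        have := congrFun (b.equivFun.apply_symm_apply fun i => q (.inl i)) j
        rwa [Basis.equivFun_apply] at this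
      simp only [this]
      exact S.var _
    have h2 : S.Def fun q : Fin n ⊕ Fin n → K => ∀ j,
        b.repr (β * (b.equivFun.symm fun i => q (.inl i)) ^ m) j = q (.inr j) :=
      forall_fin fun j => S.eq (h1 j) (S.var _)
    refine S.congr h2 fun q => ?_
    show _ ↔ β * (b.equivFun.symm fun i => q (.inl i)) ^ m = b.equivFun.symm fun j => q (.inr j)
    rw [LinearEquiv.eq_symm_apply, funext_iff]
    simp only [Basis.equivFun_apply]
  · exact Eventually.of_forall fun v => ⟨b.equivFun (β * (b.equivFun.symm v) ^ m),
      (b.equivFun.symm_apply_apply _).symm⟩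
  · intro w
    classical
    refine Set.Finite.of_finite_image (f := fun v => b.equivFun.symm v)
      (Set.Finite.subset (Polynomial.nthRoots m (β⁻¹ * b.equivFun.symm w)).toFinset.finite_toSet ?_)
      (b.equivFun.symm.injective.injOn)
    rintro _ ⟨v, hv, rfl⟩
    rw [Set.mem_ofPred_eq] at hv
    simp only [Multiset.mem_toFinset, SetLike.mem_coe]
    rw [Polynomial.mem_nthRoots (Nat.pos_of_ne_zero hm), ← hv, inv_mul_cancel_left₀ hβ]

theorem eventually_ne_zero [Infinite K] (hn : n ≠ 0) : ∀ᶠ w in L K n, w ≠ 0 := by
  obtain ⟨k, rfl⟩ := Nat.exists_eq_succ_of_ne_zero hn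
  rw [eventually_succ]
  filter_upwards [(Set.finite_singleton (0 : K)).eventually_cofinite_notMem] with x hx
  refine Eventually.of_forall fun w hw => hx ?_
  have := congrFun hw 0
  simpa using this

include hR in
/-- Every element of a finite extension is a power. -/
theorem exists_pow_eq [Infinite K] (hS : S.Sym) (F : Type*) [Field F] [Algebra K F]
    [FiniteDimensional K F] {m : ℕ} (hm : m ≠ 0) (y : F) : ∃ x : F, x ^ m = y := by
  by_cases hy : y = 0
  · exact ⟨0, by rw [hy, zero_pow hm]⟩
  set b := Module.finBasis K F with hb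
  have hn : finrank K F ≠ 0 := Module.finrank_pos.ne'
  have h1 := generic_pow hR b hS hm hy
  have h2 := generic_pow hR b hS hm (one_ne_zero (α := F))
  obtain ⟨w, ⟨v, hv⟩, ⟨u, hu⟩, hw⟩ := (h1.and (h2.and (eventually_ne_zero hn))).exists
  have hw' : b.equivFun.symm w ≠ 0 := by
    intro h
    exact hw ((LinearEquiv.map_eq_zero_iff _).mp h)
  have hv0 : b.equivFun.symm v ≠ 0 := by
    intro h
    rw [h, zero_pow hm, mul_zero] at hv
    exact hw' hv.symm
  refine ⟨b.equivFun.symm u / b.equivFun.symm v, ?_⟩
  rw [div_pow, div_eq_iff (pow_ne_zero _ hv0), hv, ← hu, one_mul]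

end ext

section closed

variable {K : Type*} [Field K] [CharZero K]

/-- If every finite extension of `K` is closed under radicals, then `K` is algebraically closed. -/
theorem isAlgClosed_of_rad.{u} {K : Type u} [Field K] [CharZero K]
    (h : ∀ (F : Type u) [Field F] [Algebra K F] [FiniteDimensional K F] (m : ℕ), m ≠ 0 →
      ∀ y : F, ∃ x : F, x ^ m = y) : IsAlgClosed K := by
  apply IsAlgClosed.of_exists_root
  intro f _ hf
  have hgal : IsGalois K f.SplittingField := IsGalois.of_separable_splitting_field hf.separable
  have htriv : Nat.card Gal(f.SplittingField/K) = 1 := by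
    by_contra hne
    obtain ⟨p, hp, hdvd⟩ := Nat.exists_prime_and_dvd hne
    have : Fact p.Prime := ⟨hp⟩
    obtain ⟨g, hg⟩ := exists_prime_orderOf_dvd_card' p hdvd
    set H := Subgroup.zpowers g with hH
    have hcard : finrank (IntermediateField.fixedField H) f.SplittingField = p := by
      rw [IntermediateField.finrank_fixedField_eq_card, Nat.card_zpowers, hg]
    have hrad : ∀ n : ℕ, n ≠ 0 → ∀ y : IntermediateField.fixedField H,
        ∃ x : IntermediateField.fixedField H, x ^ n = y := fun n hn y => h _ n hn y
    exact EL.no_prime_degree hrad hp (EL.exists_primitiveRoot hrad p hp) f.SplittingField hcard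
  rw [IsGalois.card_aut_eq_finrank] at htriv
  have hdeg : f.degree ≠ 0 := by
    intro h0
    rw [Polynomial.degree_eq_natDegree hf.ne_zero] at h0
    have h1 : f.natDegree = 0 := by exact_mod_cast h0
    exact hf.natDegree_pos.ne' h1
  obtain ⟨z, hz⟩ := (Polynomial.SplittingField.splits f).exists_eval_eq_zero
    (by rwa [Polynomial.degree_map])
  have hbot := IntermediateField.bot_eq_top_iff_finrank_eq_one.mpr htriv
  have hzm : z ∈ (⊥ : IntermediateField K f.SplittingField) := by
    rw [hbot]
    exact IntermediateField.mem_top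
  obtain ⟨x, hx⟩ := IntermediateField.mem_bot.mp hzm
  refine ⟨x, ?_⟩
  apply (algebraMap K f.SplittingField).injective
  rw [← hx, Polynomial.eval_map_algebraMap, Polynomial.aeval_algebraMap_apply] at hz
  simpa using hz

/-- A field of characteristic zero with a symmetric system of definable predicates whose terms are
closed under addition and multiplication is algebraically closed. -/
theorem isAlgClosed_of_sym.{u} {K : Type u} [Field K] [CharZero K] (S : DefSys K) (hR : S.IsRing)
    (hS : S.Sym) : IsAlgClosed K := by
  have : Infinite K := CharZero.infinite K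
  exact isAlgClosed_of_rad fun F _ _ _ m hm y => exists_pow_eq hR hS F hm y

end closed

end DefSys

end Pool.Agent.Lib.MP_097535_lc.NIP
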