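import Mathlib

/-!
# Closed shift invariant families of sets (the topological part of the asymmetric case)

A family of finite sets `D_y` of an additive group with one, of characteristic zero, which covers
every element for all but finitely many `y`, and whose traces are generically decided, realises
generically (on translates) all finite traces of some infinite and coinfinite set `B`.
-/

set_option autoImplicit false

namespace Pool.Agent.Lib.MP_097535_lc.NIP

open Set

variable {K : Type*}

section Act

variable [AddCommGroupWithOne K]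

/-- The integers act by translations on the subsets, written as Boolean functions. -/
def act (n : ℤ) (B : K → Bool) : K → Bool := fun b => B (b + (n : K))

theorem act_zero (B : K → Bool) : act 0 B = B := by
  funext b; simp [act]

theorem act_act (m n : ℤ) (B : K → Bool) : act m (act n B) = act (m + n) B := by
  funext b; simp [act, add_assoc]

theorem act_const (n : ℤ) (c : Bool) : act n (fun _ : K => c) = fun _ => c := by
  funext b; simp [act]

theorem continuous_act (n : ℤ) : Continuous (act n : (K → Bool) → K → Bool) :=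
  continuous_pi fun b => continuous_apply (b + (n : K))

/-- A clopen set separates the full set from the empty one in `Z`. -/
def Sep (Z U : Set (K → Bool)) : Prop :=
  IsClopen U ∧ (fun _ => true) ∈ U ∧ (fun _ => false) ∉ U ∧ ∀ B ∈ Z, B ∈ U → act 1 B ∈ U

/-- Closed invariant subsets of `T` with both constants that are not separated. -/
structure Adm (T Z : Set (K → Bool)) : Prop where
  closed : IsClosed Z
  inv : ∀ n : ℤ, ∀ B ∈ Z, act n B ∈ Z
  zero : (fun _ => false) ∈ Z
  one : (fun _ => true) ∈ Z
  conn : ∀ U, ¬ Sep Z U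
  sub : Z ⊆ T

theorem exists_minimal (T : Set (K → Bool)) (hT : Adm T T) :
    ∃ Z, Minimal (fun Z => Z ∈ {Z | Adm T Z}) Z := by
  refine zorn_superset _ ?_
  intro c hc hch
  rcases c.eq_empty_or_nonempty with rfl | hne
  · exact ⟨T, hT, by simp⟩
  · refine ⟨⋂₀ c, ?_, fun s hs => sInter_subset_of_mem hs⟩
    obtain ⟨Z0, hZ0⟩ := hne
    have : Nonempty c := ⟨⟨Z0, hZ0⟩⟩
    refine ⟨isClosed_sInter fun Z hZ => (hc hZ).closed, ?_, ?_, ?_, ?_, ?_⟩
    · intro n B hB
      simp only [mem_sInter] at hB ⊢
      exact fun Z hZ => (hc hZ).inv n B (hB Z hZ)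
    · simp only [mem_sInter]
      exact fun Z hZ => (hc hZ).zero
    · simp only [mem_sInter]
      exact fun Z hZ => (hc hZ).one
    · rintro U ⟨hU, h1, h0, hs⟩
      have hV : IsClopen (U ∩ (act 1 ⁻¹' Uᶜ)) := hU.inter (hU.compl.preimage (continuous_act 1))
      have hE : (U ∩ (act 1 ⁻¹' Uᶜ)) ∩ ⋂ Z : c, (Z : Set (K → Bool)) = ∅ := by
        rw [eq_empty_iff_forall_notMem]
        rintro B ⟨⟨hB1, hB2⟩, hB3⟩
        refine hB2 (hs B ?_ hB1)
        simp only [mem_sInter]
        simp only [mem_iInter] at hB3
        exact fun Z hZ => hB3 ⟨Z, hZ⟩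
      obtain ⟨Z, hZ⟩ := hV.isClosed.isCompact.elim_directed_family_closed
        (fun Z : c => (Z : Set (K → Bool))) (fun Z => (hc Z.2).closed) hE
        (by
          intro Z1 Z2
          rcases hch.total Z1.2 Z2.2 with h | h
          · exact ⟨Z1, subset_rfl, h⟩
          · exact ⟨Z2, h, subset_rfl⟩)
      refine (hc Z.2).conn U ⟨hU, h1, h0, ?_⟩
      intro B hB hBU
      by_contra hcon
      exact (eq_empty_iff_forall_notMem.1 hZ B) ⟨⟨hBU, hcon⟩, hB⟩
    · exact fun B hB => (hc hZ0).sub (mem_sInter.1 hB Z0 hZ0)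

omit [AddCommGroupWithOne K] in
/-- Countable compact sets of Boolean functions have isolated points. -/
theorem exists_isolated {Z : Set (K → Bool)} (hc : IsClosed Z) (hcount : Z.Countable)
    (hne : Z.Nonempty) :
    ∃ B ∈ Z, ∃ W, IsClopen W ∧ B ∈ W ∧ ∀ B' ∈ Z, B' ∈ W → B' = B := by
  have : CompactSpace Z := isCompact_iff_compactSpace.mp hc.isCompact
  have : Nonempty Z := hne.to_subtype
  have : Countable Z := hcount.to_subtype
  obtain ⟨z, hz⟩ := nonempty_interior_of_iUnion_of_closed (f := fun z : Z => ({z} : Set Z))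
    (fun z => isClosed_singleton) (by ext x; simp)
  have hz' : IsOpen ({z} : Set Z) := by
    have hi : interior ({z} : Set Z) = {z} := by
      refine subset_antisymm interior_subset ?_
      obtain ⟨x, hx⟩ := hz
      have hxz : x = z := by simpa using interior_subset hx
      rw [singleton_subset_iff, ← hxz]
      rw [hxz] at hx ⊢
      exact hx
    rw [← hi]
    exact isOpen_interior
  obtain ⟨O, hO, hOz⟩ := isOpen_induced_iff.1 hz'
  have hzO : (z : K → Bool) ∈ O := by
    have : z ∈ (Subtype.val ⁻¹' O : Set Z) := by rw [hOz]; rfl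
    exact this
  obtain ⟨W, hW, hzW, hWO⟩ := compact_exists_isClopen_in_isOpen hO hzO
  refine ⟨z, z.2, W, hW, hzW, ?_⟩
  intro B' hB' hBW
  have : (⟨B', hB'⟩ : Z) ∈ (Subtype.val ⁻¹' O : Set Z) := hWO hBW
  rw [hOz] at this
  exact congrArg Subtype.val (mem_singleton_iff.1 this)

omit [AddCommGroupWithOne K] in
theorem countable_of_finite_or [Countable K] {Z : Set (K → Bool)}
    (h : ∀ B ∈ Z, {b | B b = true}.Finite ∨ {b | B b = false}.Finite) : Z.Countable := by
  classical
  have h1 : {s : Set K | s.Finite}.Countable := Set.Countable.ofPred_finite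
  have h2 : ((fun s : Set K => fun b => decide (b ∈ s)) '' {s | s.Finite}).Countable := h1.image _
  have h3 : ((fun s : Set K => fun b => !decide (b ∈ s)) '' {s | s.Finite}).Countable := h1.image _
  refine (h2.union h3).mono ?_
  intro B hB
  rcases h B hB with hf | hf
  · refine Or.inl ⟨_, hf, ?_⟩
    funext b
    simp
  · refine Or.inr ⟨_, hf, ?_⟩
    funext b
    simp

/-- Translates of a set tend to the constant from which it differs finitely often. -/
theorem conv [CharZero K] {B : K → Bool} {e : Bool} (h : {b | B b ≠ e}.Finite)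
    {U : Set (K → Bool)} (hU : IsOpen U) (he : (fun _ => e) ∈ U) :
    {n : ℤ | act n B ∉ U}.Finite := by
  obtain ⟨I, u, hu, hsub⟩ := isOpen_pi_iff.1 hU _ he
  have hfin : (⋃ a ∈ I, {n : ℤ | B (a + (n : K)) ≠ e}).Finite := by
    refine Set.Finite.biUnion I.finite_toSet fun a _ => ?_
    have hinj : Function.Injective fun n : ℤ => a + (n : K) := fun m n hmn =>
      Int.cast_injective (add_left_cancel hmn)
    exact h.preimage (f := fun n : ℤ => a + (n : K)) hinj.injOn
  refine hfin.subset ?_
  intro n hn
  by_contra hcon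
  apply hn
  apply hsub
  intro a ha
  have ha' : B (a + (n : K)) = e := by
    by_contra hne
    exact hcon (mem_biUnion (s := (I : Set K)) ha hne)
  have : act n B a = e := ha'
  rw [this]
  exact (hu a ha).2

/-- **The contradiction.** A closed invariant set of finite and cofinite sets is separated. -/
theorem adm_false [CharZero K] [Countable K] {T : Set (K → Bool)} (hT : Adm T T)
    (hfc : ∀ B ∈ T, {b | B b = true}.Finite ∨ {b | B b = false}.Finite) : False := by
  obtain ⟨Z, hZ⟩ := exists_minimal T hT
  have hA : Adm T Z := hZ.prop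
  have hcount : Z.Countable := countable_of_finite_or fun B hB => hfc B (hA.sub hB)
  obtain ⟨B0, hB0, W, hW, hBW, hiso⟩ := exists_isolated hA.closed hcount ⟨_, hA.one⟩
  have htf : (fun _ : K => true) ≠ fun _ => false := by
    intro h
    have := congrFun h 0
    simp at this
  have hB1 : B0 ≠ fun _ => true := by
    intro h
    refine hA.conn W ⟨hW, h ▸ hBW, ?_, ?_⟩
    · intro h0
      exact htf ((hiso _ hA.zero h0).trans h).symm
    · intro B hB hBW'
      rw [hiso B hB hBW', h, act_const, ← h]
      exact hBW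
  have hB2 : B0 ≠ fun _ => false := by
    intro h
    refine hA.conn Wᶜ ⟨hW.compl, ?_, ?_, ?_⟩
    · intro h1
      exact htf ((hiso _ hA.one h1).trans h)
    · intro h0
      exact h0 (h ▸ hBW)
    · intro B hB hBW' h1
      have h2 : act 1 B = fun _ => false := (hiso _ (hA.inv 1 B hB) h1).trans h
      have h3 : act (-1) (act 1 B) = B := by rw [act_act]; simpa using act_zero B
      rw [h2, act_const] at h3
      apply hBW'
      rw [← h3, ← h]
      exact hBW
  -- the isolated points of the orbit
  have hback : ∀ (n : ℤ) (B : K → Bool), act (-n) (act n B) = B := by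
    intro n B
    rw [act_act]
    simpa using act_zero B
  have hforth : ∀ (n : ℤ) (B : K → Bool), act n (act (-n) B) = B := by
    intro n B
    rw [act_act]
    simpa using act_zero B
  let Wn : ℤ → Set (K → Bool) := fun n => act (-n) ⁻¹' W
  have hWn : ∀ n, IsClopen (Wn n) := fun n => hW.preimage (continuous_act (-n))
  have hmemWn : ∀ n, act n B0 ∈ Wn n := by
    intro n
    change act (-n) (act n B0) ∈ W
    rw [hback]
    exact hBW
  have hWnZ : ∀ n, ∀ B ∈ Z, B ∈ Wn n → B = act n B0 := by
    intro n B hB hBn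
    have := hiso _ (hA.inv (-n) B hB) hBn
    rw [← this, hforth]
  have hconst : ∀ (n : ℤ) (c : Bool), act n B0 ≠ fun _ => c := by
    intro n c h
    have h2 : act (-n) (act n B0) = fun _ => c := by rw [h, act_const]
    rw [hback] at h2
    cases c
    · exact hB2 h2
    · exact hB1 h2
  have hcWn : ∀ (n : ℤ) (c : Bool), (fun _ => c) ∈ Z → (fun _ => c) ∉ Wn n := by
    intro n c hc hn
    exact hconst n c (hWnZ n _ hc hn).symm
  let Z' : Set (K → Bool) := Z ∩ ⋂ n, (Wn n)ᶜ
  have hZ'Z : Z' ⊆ Z := inter_subset_left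
  have hZ' : ∀ B ∈ Z, B ∉ Z' → ∃ n, B = act n B0 := by
    intro B hB hB'
    by_contra hcon
    apply hB'
    refine ⟨hB, mem_iInter.2 fun n hn => hcon ⟨n, hWnZ n B hB hn⟩⟩
  have hnot : ¬ Adm T Z' := by
    intro h
    have : B0 ∈ Z' := hZ.2 h hZ'Z hB0
    have h2 := mem_iInter.1 this.2 0
    apply h2
    have h3 := hmemWn 0
    rwa [act_zero] at h3
  have hinv' : ∀ n : ℤ, ∀ B ∈ Z', act n B ∈ Z' := by
    rintro n B ⟨hB, hBW'⟩
    refine ⟨hA.inv n B hB, mem_iInter.2 fun m hm => ?_⟩
    have h1 := hWnZ m _ (hA.inv n B hB) hm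
    have h2 : B = act (m - n) B0 := by
      rw [← hback n B, h1, act_act]
      congr 1
      ring
    have h3 := mem_iInter.1 hBW' (m - n)
    apply h3
    rw [h2]
    exact hmemWn _
  obtain ⟨U, hU, hU1, hU0, hUs⟩ : ∃ U, Sep Z' U := by
    by_contra hcon
    apply hnot
    refine ⟨hA.closed.inter (isClosed_iInter fun n => (hWn n).compl.isClosed), hinv',
      ⟨hA.zero, mem_iInter.2 fun n => hcWn n false hA.zero⟩,
      ⟨hA.one, mem_iInter.2 fun n => hcWn n true hA.one⟩, fun U hU => hcon ⟨U, hU⟩,
      hZ'Z.trans hA.sub⟩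
  rcases hfc B0 (hA.sub hB0) with hf | hf
  · -- translates tend to the empty set
    have hF : {n : ℤ | act n B0 ∈ U}.Finite := by
      have := conv (e := false) (B := B0) (by simpa using hf) hU.compl.isOpen hU0
      simpa using this
    refine hA.conn (U \ ⋃ n ∈ {n : ℤ | act n B0 ∈ U}, Wn n)
      ⟨hU.diff (hF.isClopen_biUnion fun n _ => hWn n), ⟨hU1, ?_⟩, fun h => hU0 h.1, ?_⟩
    · intro h
      obtain ⟨n, hn, hn'⟩ := mem_iUnion₂.1 h
      exact hcWn n true hA.one hn'
    · rintro B hB ⟨hBU, hBn⟩
      have hBZ' : B ∈ Z' := by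
        by_contra hcon
        obtain ⟨n, rfl⟩ := hZ' B hB hcon
        exact hBn (mem_iUnion₂.2 ⟨n, hBU, hmemWn n⟩)
      refine ⟨hUs B hBZ' hBU, ?_⟩
      intro h
      obtain ⟨n, hn, hn'⟩ := mem_iUnion₂.1 h
      exact mem_iInter.1 (hinv' 1 B hBZ').2 n hn'
  · -- translates tend to the full set
    have hF : {n : ℤ | act n B0 ∉ U}.Finite :=
      conv (e := true) (B := B0) (by simpa using hf) hU.isOpen hU1
    refine hA.conn (U ∪ ⋃ n ∈ {n : ℤ | act n B0 ∉ U}, Wn n)
      ⟨hU.union (hF.isClopen_biUnion fun n _ => hWn n), Or.inl hU1, ?_, ?_⟩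
    · rintro (h | h)
      · exact hU0 h
      · obtain ⟨n, hn, hn'⟩ := mem_iUnion₂.1 h
        exact hcWn n false hA.zero hn'
    · intro B hB hBU
      by_cases hBZ' : B ∈ Z'
      · left
        refine hUs B hBZ' ?_
        rcases hBU with h | h
        · exact h
        · obtain ⟨n, hn, hn'⟩ := mem_iUnion₂.1 h
          exact absurd hn' (mem_iInter.1 hBZ'.2 n)
      · obtain ⟨n, rfl⟩ := hZ' B hB hBZ'
        rw [act_act]
        by_cases h : act (1 + n) B0 ∈ U
        · exact Or.inl h
        · exact Or.inr (mem_iUnion₂.2 ⟨1 + n, h, hmemWn _⟩)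

end Act

section Final

variable [AddCommGroupWithOne K]

/-- The translations `t` for which the trace of `B` on `A` is realised on `t + A` by some `D_y`. -/
def Pat (D : K → K → Prop) (A : Finset K) (B : K → Bool) : Set K :=
  {t | ∃ y, ∀ a ∈ A, (D (t + a) y ↔ B a = true)}

/-- The sets all of whose finite traces are generically realised. -/
def TT (D : K → K → Prop) : Set (K → Bool) := {B | ∀ A : Finset K, (Pat D A B)ᶜ.Finite}

theorem pat_congr (D : K → K → Prop) (A : Finset K) {B B' : K → Bool}
    (h : ∀ a ∈ A, B a = B' a) : Pat D A B = Pat D A B' := by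
  ext t
  constructor
  · rintro ⟨y, hy⟩
    exact ⟨y, fun a ha => by rw [← h a ha]; exact hy a ha⟩
  · rintro ⟨y, hy⟩
    exact ⟨y, fun a ha => by rw [h a ha]; exact hy a ha⟩

theorem pat_anti (D : K → K → Prop) {A A' : Finset K} (h : A ⊆ A') (B : K → Bool) :
    Pat D A' B ⊆ Pat D A B := by
  rintro t ⟨y, hy⟩
  exact ⟨y, fun a ha => hy a (h ha)⟩

omit [AddCommGroupWithOne K] in
/-- A set of Boolean functions which depends on finitely many coordinates is clopen. -/
theorem isClopen_of_dep (A : Finset K) (U : Set (K → Bool))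
    (h : ∀ B B' : K → Bool, (∀ a ∈ A, B a = B' a) → B ∈ U → B' ∈ U) : IsClopen U := by
  let r : (K → Bool) → (A → Bool) := fun B a => B a
  have hr : Continuous r := continuous_pi fun a => continuous_apply (a : K)
  have hU : U = r ⁻¹' (r '' U) := by
    refine subset_antisymm (subset_preimage_image r U) ?_
    rintro B ⟨B', hB', hBB'⟩
    exact h B' B (fun a ha => congrFun hBB' ⟨a, ha⟩) hB'
  rw [hU]
  exact (isClopen_discrete _).preimage hr

/-- The trace of `D_y - t`. -/
noncomputable def sh (D : K → K → Prop) (y t : K) : K → Bool :=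
  fun b => @decide (D (t + b) y) (Classical.propDecidable _)

theorem sh_apply (D : K → K → Prop) (y t b : K) : sh D y t b = true ↔ D (t + b) y := by
  simp [sh]

theorem act_sh (D : K → K → Prop) (y t : K) : act 1 (sh D y t) = sh D y (t + 1) := by
  funext b
  have h : t + (b + ((1 : ℤ) : K)) = t + 1 + b := by
    rw [Int.cast_one]
    abel
  simp only [act, sh]
  rw [h]

theorem adm_TT [CharZero K] (D : K → K → Prop) (hfin : ∀ y, {x | D x y}.Finite)
    (hcof : ∀ x, {y | ¬ D x y}.Finite)
    (hmin : ∀ A P : Finset K, {t | ∃ y, ∀ a ∈ A, (D (t + a) y ↔ a ∈ P)}.Finite ∨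
      {t | ∃ y, ∀ a ∈ A, (D (t + a) y ↔ a ∈ P)}ᶜ.Finite) : Adm (TT D) (TT D) := by
  classical
  have hinf : Infinite K := Infinite.of_injective (fun n : ℕ => (n : K)) Nat.cast_injective
  have hT : TT D = ⋂ A : Finset K, {B | (Pat D A B)ᶜ.Finite} := by
    ext B; simp [TT]
  have hFcl : ∀ A : Finset K, IsClopen {B | (Pat D A B)ᶜ.Finite} := fun A =>
    isClopen_of_dep A _ fun B B' h hB => by
      simp only [mem_ofPred_eq] at hB ⊢
      rwa [← pat_congr D A h]
  -- every finite set is contained in some member
  have hcov : ∀ (t : K) (A : Finset K), ∃ y, ∀ a ∈ A, D (t + a) y := by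
    intro t A
    have h1 : (⋃ a ∈ (A : Set K), {y | ¬ D (t + a) y}).Finite :=
      Set.Finite.biUnion A.finite_toSet fun a _ => hcof _
    obtain ⟨y, hy⟩ := h1.infinite_compl.nonempty
    refine ⟨y, fun a ha => ?_⟩
    by_contra hcon
    exact hy (mem_biUnion (Finset.mem_coe.2 ha) hcon)
  -- a member meets only finitely many translates of a finite set
  have hmeet : ∀ (y : K) (A : Finset K), {t | ∃ a ∈ A, D (t + a) y}.Finite := by
    intro y A
    have h1 : (⋃ a ∈ (A : Set K), {t | D (t + a) y}).Finite :=
      Set.Finite.biUnion A.finite_toSet fun a _ =>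
        (hfin y).preimage (f := fun t => t + a) (fun s _ t _ h => add_right_cancel h)
    refine h1.subset ?_
    rintro t ⟨a, ha, h⟩
    exact mem_biUnion (Finset.mem_coe.2 ha) h
  refine ⟨?_, ?_, ?_, ?_, ?_, subset_rfl⟩
  · rw [hT]
    exact isClosed_iInter fun A => (hFcl A).isClosed
  · intro n B hB A
    have h1 := hB (A.image fun a => a + (n : K))
    have h2 : (Pat D A (act n B))ᶜ =
        (fun t : K => t - (n : K)) ⁻¹' (Pat D (A.image fun a => a + (n : K)) B)ᶜ := by
      ext t
      simp only [mem_compl_iff, mem_preimage, not_iff_not, Pat, mem_ofPred_eq, act,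
        Finset.mem_image, forall_exists_index, and_imp, forall_apply_eq_imp_iff₂]
      have h3 : ∀ a : K, t - (n : K) + (a + (n : K)) = t + a := fun a => by abel
      simp only [h3]
    rw [h2]
    exact h1.preimage (fun s _ t _ h => sub_left_injective h)
  · intro A
    refine (hmeet 0 A).subset ?_
    intro t ht
    by_contra hcon
    refine ht ⟨0, fun a ha => ?_⟩
    simp only [Bool.false_eq_true, iff_false]
    exact fun h => hcon ⟨a, ha, h⟩
  · intro A
    have h1 : (Pat D A fun _ => true)ᶜ = ∅ := by
      rw [compl_empty_iff, eq_univ_iff_forall]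
      intro t
      obtain ⟨y, hy⟩ := hcov t A
      exact ⟨y, fun a ha => by simpa using hy a ha⟩
    rw [h1]
    exact finite_empty
  · rintro U ⟨hU, h1, h0, hs⟩
    have hV : IsClopen (U ∩ (act 1 ⁻¹' Uᶜ)) := hU.inter (hU.compl.preimage (continuous_act 1))
    have hE : (U ∩ (act 1 ⁻¹' Uᶜ)) ∩ ⋂ A : Finset K, {B | (Pat D A B)ᶜ.Finite} = ∅ := by
      rw [← hT, eq_empty_iff_forall_notMem]
      rintro B ⟨⟨hB1, hB2⟩, hB3⟩
      exact hB2 (hs B hB3 hB1)
    obtain ⟨A, hA⟩ := hV.isClosed.isCompact.elim_directed_family_closed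
      (fun A : Finset K => {B | (Pat D A B)ᶜ.Finite}) (fun A => (hFcl A).isClosed) hE
      (by
        intro A1 A2
        refine ⟨A1 ∪ A2, ?_, ?_⟩
        · intro B hB
          exact Set.Finite.subset hB
            (compl_subset_compl.2 (pat_anti D Finset.subset_union_left B))
        · intro B hB
          exact Set.Finite.subset hB
            (compl_subset_compl.2 (pat_anti D Finset.subset_union_right B)))
    -- the exceptional translations
    have hExc : {t | ∃ y, sh D y t ∈ U ∩ (act 1 ⁻¹' Uᶜ)}.Finite := by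
      have hfin1 : (⋃ P ∈ {P : Finset K | P ⊆ A ∧
          {t | ∃ y, ∀ a ∈ A, (D (t + a) y ↔ a ∈ P)}.Finite},
          {t | ∃ y, ∀ a ∈ A, (D (t + a) y ↔ a ∈ P)}).Finite := by
        refine Set.Finite.biUnion ?_ fun P hP => hP.2
        refine (Finset.finite_toSet A.powerset).subset ?_
        intro P hP
        simpa using hP.1
      refine hfin1.subset ?_
      rintro t ⟨y, hy⟩
      have hP : Pat D A (sh D y t) =
          {s | ∃ z, ∀ a ∈ A, (D (s + a) z ↔ a ∈ A.filter fun a => D (t + a) y)} := by
        ext s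
        simp only [Pat, mem_ofPred_eq, Finset.mem_filter, sh_apply]
        refine exists_congr fun z => forall_congr' fun a => ?_
        refine imp_congr_right fun ha => ?_
        simp [ha]
      have hnot : ¬ (Pat D A (sh D y t))ᶜ.Finite := by
        intro h
        exact (eq_empty_iff_forall_notMem.1 hA (sh D y t)) ⟨hy, h⟩
      rw [hP] at hnot
      refine mem_biUnion (x := A.filter fun a => D (t + a) y)
        ⟨Finset.filter_subset _ _, (hmin A _).resolve_right hnot⟩ ?_
      refine ⟨y, fun a ha => ?_⟩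
      simp [ha]
    -- a member is in `U` for finitely many translations only
    have hG : ∀ y, {t | sh D y t ∈ U}.Finite := by
      intro y
      obtain ⟨I, u, hu, hsub⟩ := isOpen_pi_iff.1 hU.compl.isOpen _ h0
      refine (hmeet y I).subset ?_
      intro t ht
      by_contra hcon
      have : sh D y t ∈ Uᶜ := by
        apply hsub
        intro b hb
        have hb' : sh D y t b = false := by
          rw [← Bool.not_eq_true, sh_apply]
          exact fun h => hcon ⟨b, hb, h⟩
        rw [hb']
        exact (hu b hb).2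
      exact this ht
    -- start far out
    have hbd : {k : ℕ | (k : K) ∈ {t | ∃ y, sh D y t ∈ U ∩ (act 1 ⁻¹' Uᶜ)}}.Finite :=
      hExc.preimage (f := fun k : ℕ => (k : K)) (Nat.cast_injective.injOn)
    obtain ⟨m, hm⟩ := hbd.bddAbove
    obtain ⟨I, u, hu, hsub⟩ := isOpen_pi_iff.1 hU.isOpen _ h1
    obtain ⟨y, hy⟩ := hcov ((m + 1 : ℕ) : K) I
    have hstart : sh D y ((m + 1 : ℕ) : K) ∈ U := by
      apply hsub
      intro b hb
      have hb' : sh D y ((m + 1 : ℕ) : K) b = true := (sh_apply D y _ b).2 (hy b hb)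
      rw [hb']
      exact (hu b hb).2
    have hall : ∀ n : ℕ, sh D y ((m + 1 + n : ℕ) : K) ∈ U := by
      intro n
      induction n with
      | zero => simpa using hstart
      | succ n ih =>
        by_contra hcon
        have h2 : ((m + 1 + n : ℕ) : K) ∈ {t | ∃ y, sh D y t ∈ U ∩ (act 1 ⁻¹' Uᶜ)} := by
          refine ⟨y, ih, ?_⟩
          change act 1 (sh D y ((m + 1 + n : ℕ) : K)) ∉ U
          rw [act_sh]
          have h3 : ((m + 1 + n : ℕ) : K) + 1 = ((m + 1 + (n + 1) : ℕ) : K) := by
            push_cast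
            abel
          rw [h3]
          exact hcon
        have h4 := hm h2
        omega
    refine Set.infinite_of_injective_forall_mem (f := fun n : ℕ => ((m + 1 + n : ℕ) : K)) ?_ hall
      (hG y)
    intro a b hab
    have := Nat.cast_injective hab
    omega

/-- **Main theorem.** Let `D_y = {x | D x y}` be finite for all `y`, with every `x` in `D_y` for all
but finitely many `y`, and let the set of translations realising a given trace on a given finite set
be finite or cofinite. Then some infinite and coinfinite `B` has all its finite traces realised on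
all but finitely many translates. -/
theorem topo [CharZero K] (D : K → K → Prop) (hfin : ∀ y, {x | D x y}.Finite)
    (hcof : ∀ x, {y | ¬ D x y}.Finite)
    (hmin : ∀ A P : Finset K, {t | ∃ y, ∀ a ∈ A, (D (t + a) y ↔ a ∈ P)}.Finite ∨
      {t | ∃ y, ∀ a ∈ A, (D (t + a) y ↔ a ∈ P)}ᶜ.Finite) :
    ∃ B : Set K, B.Infinite ∧ Bᶜ.Infinite ∧ ∀ A : Finset K,
      {t | ¬ ∃ y, ∀ a ∈ A, (D (t + a) y ↔ a ∈ B)}.Finite := by
  classical
  have hinf : Infinite K := Infinite.of_injective (fun n : ℕ => (n : K)) Nat.cast_injective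
  have hcount : Countable K := by
    have h1 : (⋃ n : ℕ, {x | D x (n : K)}).Countable :=
      countable_iUnion fun n => (hfin _).countable
    have h2 : (⋃ n : ℕ, {x | D x (n : K)}) = univ := by
      rw [eq_univ_iff_forall]
      intro x
      by_contra hcon
      simp only [mem_iUnion, not_exists] at hcon
      exact Set.infinite_of_injective_forall_mem (f := fun n : ℕ => (n : K))
        Nat.cast_injective hcon (hcof x)
    rw [h2] at h1
    exact countable_univ_iff.1 h1
  by_contra hcon
  refine adm_false (adm_TT D hfin hcof hmin) ?_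
  intro B hB
  by_contra hcon2
  rw [not_or] at hcon2
  apply hcon
  refine ⟨{b | B b = true}, hcon2.1, ?_, ?_⟩
  · have : {b | B b = true}ᶜ = {b | B b = false} := by
      ext b; simp
    rw [this]
    exact hcon2.2
  · intro A
    exact hB A

end Final

end Pool.Agent.Lib.MP_097535_lc.NIP
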