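import Pool.Agent.Lib.MP_097535_lc.NIP.Sys
import Pool.Agent.Lib.MP_097535_lc.NIP.Topo

/-!
# The asymmetric case: a shattering family of finite sets
-/

set_option autoImplicit false

namespace Pool.Agent.Lib.MP_097535_lc.NIP

open Set Filter

namespace DefSys

variable {K : Type*} (S : DefSys K) {ι : Type}

theorem finset_all [Nonempty K] {α : Type*} (A : Finset α) {P : α → (ι → K) → Prop}
    (h : ∀ a, S.Def (P a)) : S.Def fun q => ∀ a ∈ A, P a q := by
  classical
  induction A using Finset.induction_on with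
  | empty => exact S.congr S.top fun q => by simp
  | insert a s _ ih => exact S.congr (S.and (h a) ih) fun q => by simp

theorem fintype_all [Nonempty K] {α : Type*} [Fintype α] {P : α → (ι → K) → Prop}
    (h : ∀ a, S.Def (P a)) : S.Def fun q => ∀ a, P a q :=
  S.congr (S.finset_all Finset.univ h) fun q => by simp

/-- Substitution in a binary relation. -/
theorem sub2 {R : K → K → Prop} (hR : S.Def fun q : Fin 2 → K => R (q 0) (q 1))
    {f g : (ι → K) → K} (hf : S.Tm f) (hg : S.Tm g) : S.Def fun q => R (f q) (g q) := by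
  refine S.subst (P := fun q : Fin 2 → K => R (q 0) (q 1)) (F := fun q => ![f q, g q]) hR ?_
  intro j
  fin_cases j
  · exact hf
  · exact hg

variable {S}

/-- The minimality for one variable relations with a parameter. -/
theorem min_left {R : K → K → Prop} (hR : S.Def fun q : Fin 2 → K => R (q 0) (q 1)) (y : K) :
    (∀ᶠ x in cofinite, R x y) ∨ ∀ᶠ x in cofinite, ¬ R x y :=
  S.min (P := fun q => R (q ()) y) (S.sub2 hR (S.var ()) (S.const y))

/-- **The relation with finite sections.** -/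
theorem exists_finite_sections {R : K → K → Prop}
    (hR : S.Def fun q : Fin 2 → K => R (q 0) (q 1))
    (h1 : ∀ᶠ x in cofinite, ∀ᶠ y in cofinite, R x y)
    (h2 : ¬ ∀ᶠ y in cofinite, ∀ᶠ x in cofinite, R x y) :
    ∃ D : K → K → Prop, S.Def (fun q : Fin 2 → K => D (q 0) (q 1)) ∧
      (∀ y, {x | D x y}.Finite) ∧ ∀ x, {y | ¬ D x y}.Finite := by
  have hA : ∀ {κ : Type} {g : (κ → K) → K}, S.Tm g →
      S.Def fun q : κ → K => ∀ᶠ x' in cofinite, R x' (g q) := by
    intro κ g hg
    have h3 : S.Def fun q : Unit → K => ∀ᶠ x' in cofinite, R x' (q ()) :=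
      S.qf (P := fun x' (q : Unit → K) => R x' (q ())) (S.sub2 hR (S.var none) (S.var (some ())))
    exact S.subst (P := fun q : Unit → K => ∀ᶠ x' in cofinite, R x' (q ()))
      (F := fun q _ => g q) h3 fun _ => hg
  have hB : ∀ {κ : Type} {g : (κ → K) → K}, S.Tm g →
      S.Def fun q : κ → K => ∀ᶠ y' in cofinite, R (g q) y' := by
    intro κ g hg
    have h3 : S.Def fun q : Unit → K => ∀ᶠ y' in cofinite, R (q ()) y' :=
      S.qf (P := fun y' (q : Unit → K) => R (q ()) y') (S.sub2 hR (S.var (some ())) (S.var none))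
    exact S.subst (P := fun q : Unit → K => ∀ᶠ y' in cofinite, R (q ()) y')
      (F := fun q _ => g q) h3 fun _ => hg
  have h2' : ∀ᶠ y in cofinite, ¬ ∀ᶠ x in cofinite, R x y :=
    (S.min (P := fun q : Unit → K => ∀ᶠ x' in cofinite, R x' (q ())) (hA (S.var ()))).resolve_left
      h2
  refine ⟨fun x y => (¬ ∀ᶠ x' in cofinite, R x' y) ∧ (R x y ∨ ¬ ∀ᶠ y' in cofinite, R x y'),
    ?_, ?_, ?_⟩
  · exact S.and (S.not (hA (S.var 1))) (S.or hR (S.not (hB (S.var 0))))
  · intro y
    by_cases hy : ∀ᶠ x' in cofinite, R x' y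
    · simp [hy]
    · have h3 : ∀ᶠ x in cofinite, ¬ R x y := (min_left hR y).resolve_left hy
      have h4 : ∀ᶠ x in cofinite,
          ¬ ((¬ ∀ᶠ x' in cofinite, R x' y) ∧ (R x y ∨ ¬ ∀ᶠ y' in cofinite, R x y')) := by
        filter_upwards [h1, h3] with x hx1 hx3 h
        rcases h.2 with h5 | h5
        · exact hx3 h5
        · exact h5 hx1
      rw [eventually_cofinite] at h4
      simpa only [not_not] using h4
  · intro x
    by_cases hx : ∀ᶠ y' in cofinite, R x y'
    · have h4 : ∀ᶠ y in cofinite,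
          ((¬ ∀ᶠ x' in cofinite, R x' y) ∧ (R x y ∨ ¬ ∀ᶠ y' in cofinite, R x y')) := by
        filter_upwards [h2', hx] with y hy1 hy2
        exact ⟨hy1, Or.inl hy2⟩
      rwa [eventually_cofinite] at h4
    · have h4 : ∀ᶠ y in cofinite,
          ((¬ ∀ᶠ x' in cofinite, R x' y) ∧ (R x y ∨ ¬ ∀ᶠ y' in cofinite, R x y')) := by
        filter_upwards [h2'] with y hy1
        exact ⟨hy1, Or.inr hx⟩
      rwa [eventually_cofinite] at h4

end DefSys

section Shatter

variable {K : Type*} [AddCommGroupWithOne K] [CharZero K]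

/-- A definable family of finite sets covering every element for all but finitely many parameters
shatters sets of every finite size. -/
theorem shatter (S : DefSys K)
    (hadd : ∀ (ι : Type) (f g : (ι → K) → K), S.Tm f → S.Tm g → S.Tm fun p => f p + g p)
    {D : K → K → Prop} (hD : S.Def fun q : Fin 2 → K => D (q 0) (q 1))
    (hfin : ∀ y, {x | D x y}.Finite) (hcof : ∀ x, {y | ¬ D x y}.Finite) (k : ℕ) :
    ∃ a : Fin k → K, Function.Injective a ∧
      ∀ ε : Fin k → Prop, ∃ y, ∀ i, (D (a i) y ↔ ε i) := by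
  classical
  have hinf : Infinite K := Infinite.of_injective (fun n : ℕ => (n : K)) Nat.cast_injective
  obtain ⟨B, hB1, hB2, hB⟩ := topo D hfin hcof (by
    intro A P
    have h1 : S.Def fun q : Unit → K => ∃ y, ∀ a ∈ A, (D (q () + a) y ↔ a ∈ P) := by
      apply S.ex (P := fun y (q : Unit → K) => ∀ a ∈ A, (D (q () + a) y ↔ a ∈ P))
      exact S.finset_all A (P := fun a (q : Option Unit → K) =>
        (D (q (some ()) + a) (q none) ↔ a ∈ P)) fun a =>
          S.iff (S.sub2 hD (hadd _ _ _ (S.var _) (S.const a)) (S.var none)) (S.prop (a ∈ P))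
    rcases S.min h1 with h | h
    · right
      rwa [eventually_cofinite] at h
    · left
      rw [eventually_cofinite] at h
      simpa only [not_not] using h)
  have hdef : ∀ ε : Fin k → Prop, S.Def fun u : Fin k → K =>
      ∀ᶠ t in cofinite, ∃ y, ∀ i, (D (t + u i) y ↔ ε i) := by
    intro ε
    apply S.qf (P := fun t (u : Fin k → K) => ∃ y, ∀ i, (D (t + u i) y ↔ ε i))
    apply S.ex (P := fun y (q : Option (Fin k) → K) =>
      ∀ i, (D (q none + q (some i)) y ↔ ε i))
    exact S.fintype_all (P := fun i (q : Option (Option (Fin k)) → K) =>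
      (D (q (some none) + q (some (some i))) (q none) ↔ ε i)) fun i =>
        S.iff (S.sub2 hD (hadd _ _ _ (S.var _) (S.var _)) (S.var none)) (S.prop (ε i))
  have hgen : ∀ ε : Fin k → Prop, ∀ᶠ u in L K k,
      ∀ᶠ t in cofinite, ∃ y, ∀ i, (D (t + u i) y ↔ ε i) := by
    intro ε
    refine (S.ultra (hdef ε)).resolve_right fun hneg => ?_
    obtain ⟨u, hu, hue⟩ := exists_prescribed hB1 hB2 k ε hneg
    apply hu
    have h3 := hB (Finset.univ.image u)
    rw [eventually_cofinite]
    refine h3.subset ?_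
    intro t ht hcon
    apply ht
    obtain ⟨y, hy⟩ := hcon
    refine ⟨y, fun i => ?_⟩
    rw [hy (u i) (Finset.mem_image_of_mem u (Finset.mem_univ i)), hue i]
  have hall : ∀ᶠ u in L K k, ∀ ε : Fin k → Prop,
      ∀ᶠ t in cofinite, ∃ y, ∀ i, (D (t + u i) y ↔ ε i) := by
    rw [Filter.eventually_all]
    exact hgen
  obtain ⟨u, hu1, hu2⟩ := (hall.and (eventually_injective (K := K) k)).exists
  have hall2 : ∀ᶠ t in (cofinite : Filter K), ∀ ε : Fin k → Prop,
      ∃ y, ∀ i, (D (t + u i) y ↔ ε i) := by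
    rw [Filter.eventually_all]
    exact hu1
  obtain ⟨t, ht⟩ := hall2.exists
  exact ⟨fun i => t + u i, fun i j hij => hu2 (add_left_cancel hij), ht⟩

/-- **The asymmetric case.** If the generic quantifiers do not commute then some definable family
of finite sets shatters sets of every finite size. -/
theorem asym (S : DefSys K)
    (hadd : ∀ (ι : Type) (f g : (ι → K) → K), S.Tm f → S.Tm g → S.Tm fun p => f p + g p)
    {R : K → K → Prop} (hR : S.Def fun q : Fin 2 → K => R (q 0) (q 1))
    (h1 : ∀ᶠ x in cofinite, ∀ᶠ y in cofinite, R x y)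
    (h2 : ¬ ∀ᶠ y in cofinite, ∀ᶠ x in cofinite, R x y) :
    ∃ D : K → K → Prop, S.Def (fun q : Fin 2 → K => D (q 0) (q 1)) ∧
      (∀ y, {x | D x y}.Finite) ∧ (∀ x, {y | ¬ D x y}.Finite) ∧
      ∀ k : ℕ, ∃ a : Fin k → K, Function.Injective a ∧
        ∀ ε : Fin k → Prop, ∃ y, ∀ i, (D (a i) y ↔ ε i) := by
  obtain ⟨D, hD, hfin, hcof⟩ := DefSys.exists_finite_sections hR h1 h2
  exact ⟨D, hD, hfin, hcof, shatter S hadd hD hfin hcof⟩

end Shatter

end Pool.Agent.Lib.MP_097535_lc.NIP
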