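import Pool.Agent.Lib.MP_097535_lc.NIP.Sys

/-!
# The symmetric case: images of finite-to-one relations

If the generic quantifiers commute, then for every definable finite-to-one relation between tuples
of the same length with generic domain the image is generic.
-/

set_option autoImplicit false

namespace Pool.Agent.Lib.MP_097535_lc.NIP

open Filter

namespace DefSys

variable {K : Type*} (S : DefSys K) {ι κ : Type}

/-- The generic quantifiers commute. -/
def Sym : Prop := ∀ R : K → K → Prop, (S.Def fun q : Fin 2 → K => R (q 0) (q 1)) →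
  (∀ᶠ x in cofinite, ∀ᶠ y in cofinite, R x y) → ∀ᶠ y in cofinite, ∀ᶠ x in cofinite, R x y

/-- Fubini for tuples. -/
theorem fubini (hS : S.Sym) {n : ℕ} {R : K → (Fin n → K) → Prop}
    (h : S.Def fun q : Option (Fin n) → K => R (q none) fun i => q (some i))
    (h1 : ∀ᶠ x in cofinite, ∀ᶠ w in L K n, R x w) : ∀ᶠ w in L K n, ∀ᶠ x in cofinite, R x w := by
  induction n with
  | zero =>
    rw [eventually_zero]
    filter_upwards [h1] with x hx
    exact eventually_zero.mp hx
  | succ n ih =>
    have h2 : ∀ᶠ x in cofinite, ∀ᶠ y in cofinite, ∀ᶠ w in L K n,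
        R x (Fin.cons (α := fun _ => K) y w) := by
      filter_upwards [h1] with x hx
      exact eventually_succ.mp hx
    have h3 := hS (fun x y => ∀ᶠ w in L K n, R x (Fin.cons (α := fun _ => K) y w)) (by
      apply S.large (X := fun (q : Fin 2 → K) w => R (q 0) (Fin.cons (α := fun _ => K) (q 1) w))
      refine S.subst (P := fun q : Option (Fin (n + 1)) → K => R (q none) fun i => q (some i))
        (F := fun (q : Fin 2 ⊕ Fin n → K) j => j.elim (q (Sum.inl 0))
          (Fin.cons (α := fun _ => K) (q (Sum.inl 1)) fun j => q (Sum.inr j))) h ?_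
      rintro (_ | j)
      · exact S.var _
      · exact S.tm_cons (S.var _) (fun j => S.var _) j) h2
    rw [eventually_succ]
    filter_upwards [h3] with y hy
    refine ih (R := fun x w => R x (Fin.cons (α := fun _ => K) y w)) ?_ hy
    refine S.subst (P := fun q : Option (Fin (n + 1)) → K => R (q none) fun i => q (some i))
      (F := fun (q : Option (Fin n) → K) j => j.elim (q none)
        (Fin.cons (α := fun _ => K) y fun j => q (some j))) h ?_
    rintro (_ | j)
    · exact S.var _
    · exact S.tm_cons (S.const _) (fun j => S.var _) j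

/-- The points at which the slices become generic exactly at the coordinate `i`. -/
def thin : (n : ℕ) → ((Fin n → K) → Prop) → Fin n → (Fin n → K) → Prop
  | 0, _, _, _ => False
  | n + 1, X, i, u => Fin.cases (∀ᶠ w in L K n, X (Fin.cons (α := fun _ => K) (u 0) w))
      (fun j => (¬ ∀ᶠ w in L K n, X (Fin.cons (α := fun _ => K) (u 0) w)) ∧
        thin n (fun w => X (Fin.cons (α := fun _ => K) (u 0) w)) j (Fin.tail u)) i

theorem thin_zero {n : ℕ} {X : (Fin (n + 1) → K) → Prop} {u : Fin (n + 1) → K} :
    thin (n + 1) X 0 u ↔ ∀ᶠ w in L K n, X (Fin.cons (α := fun _ => K) (u 0) w) := Iff.rfl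

theorem thin_succ {n : ℕ} {X : (Fin (n + 1) → K) → Prop} {j : Fin n} {u : Fin (n + 1) → K} :
    thin (n + 1) X j.succ u ↔ (¬ ∀ᶠ w in L K n, X (Fin.cons (α := fun _ => K) (u 0) w)) ∧
        thin n (fun w => X (Fin.cons (α := fun _ => K) (u 0) w)) j (Fin.tail u) := Iff.rfl

theorem thin_cover {n : ℕ} {X : (Fin n → K) → Prop} (hX : ¬ ∀ᶠ u in L K n, X u)
    {u : Fin n → K} (hu : X u) : ∃ i, thin n X i u := by
  induction n with
  | zero =>
    exfalso
    apply hX
    rw [eventually_zero]
    rwa [Subsingleton.elim u Fin.elim0] at hu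
  | succ n ih =>
    by_cases h : ∀ᶠ w in L K n, X (Fin.cons (α := fun _ => K) (u 0) w)
    · exact ⟨0, thin_zero.mpr h⟩
    · obtain ⟨j, hj⟩ := ih (X := fun w => X (Fin.cons (α := fun _ => K) (u 0) w)) h
        (u := Fin.tail u) (by rwa [Fin.cons_self_tail])
      exact ⟨j.succ, thin_succ.mpr ⟨h, hj⟩⟩

theorem thin_def {n : ℕ} {X : (ι → K) → (Fin n → K) → Prop} (h : S.Fam X) (i : Fin n) :
    S.Fam fun p u => thin n (X p) i u := by
  induction n generalizing ι with
  | zero => exact i.elim0
  | succ n ih =>
    have hX : S.Fam fun (q : ι ⊕ Fin (n + 1) → K) w => X (fun i => q (.inl i))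
        (Fin.cons (α := fun _ => K) (q (.inr 0)) w) :=
      Fam.subst h (fun j => S.var _) (S.tm_cons (S.var _) (fun j => S.var _))
    have hL := S.large hX
    refine Fin.cases ?_ (fun j => ?_) i
    · exact hL
    · refine S.and (S.not hL) ?_
      exact Fam.subst (F := fun q => q) (G := fun q j => q (.inr j.succ)) (ih hX j)
        (fun j => S.var _) (fun j => S.var _)

theorem thin_finite {n : ℕ} {X : (Fin (n + 1) → K) → Prop} (h : S.Def X)
    (hX : ¬ ∀ᶠ u in L K (n + 1), X u) (i : Fin (n + 1)) (w : Fin n → K) :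
    {c : K | thin (n + 1) X i (i.insertNth (α := fun _ => K) c w)}.Finite := by
  induction n with
  | zero =>
    obtain rfl : i = 0 := Fin.fin_one_eq_zero i
    have h1 : S.Def fun q : Unit → K => ∀ᶠ w in L K 0, X (Fin.cons (α := fun _ => K) (q ()) w) := by
      apply S.large (X := fun (q : Unit → K) w => X (Fin.cons (α := fun _ => K) (q ()) w))
      exact S.subst h (S.tm_cons (S.var _) (fun j => S.var _))
    have h2 := (S.min h1).resolve_left (by rwa [eventually_succ] at hX)
    rw [eventually_cofinite] at h2
    refine h2.subset ?_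
    intro c hc
    rw [Set.mem_ofPred_eq, thin_zero] at hc
    simpa using hc
  | succ n ih =>
    revert w
    refine Fin.cases ?_ (fun j => ?_) i
    · intro w
      have h1 : S.Def fun q : Unit → K => ∀ᶠ w in L K (n + 1),
          X (Fin.cons (α := fun _ => K) (q ()) w) := by
        apply S.large (X := fun (q : Unit → K) w => X (Fin.cons (α := fun _ => K) (q ()) w))
        exact S.subst h (S.tm_cons (S.var _) (fun j => S.var _))
      have h2 := (S.min h1).resolve_left (by rwa [eventually_succ] at hX)
      rw [eventually_cofinite] at h2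
      refine h2.subset ?_
      intro c hc
      rw [Set.mem_ofPred_eq, thin_zero] at hc
      simpa using hc
    · intro w
      have key : ∀ c : K, (j.succ.insertNth (α := fun _ => K) c w) =
          Fin.cons (α := fun _ => K) (w 0) (j.insertNth (α := fun _ => K) c (Fin.tail w)) := by
        intro c
        refine funext fun k => ?_
        refine Fin.cases ?_ (fun l => ?_) k
        · have : (0 : Fin (n + 2)) = j.succ.succAbove 0 := by simp
          rw [Fin.cons_zero, this, Fin.insertNth_apply_succAbove]
        · rw [Fin.cons_succ]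
          refine Fin.succAboveCases j ?_ (fun m => ?_) l
          · simp
          · rw [← Fin.succ_succAbove_succ, Fin.insertNth_apply_succAbove,
              Fin.insertNth_apply_succAbove]
            rfl
      by_cases h0 : ∀ᶠ v in L K (n + 1), X (Fin.cons (α := fun _ => K) (w 0) v)
      · convert Set.finite_empty
        ext c
        rw [Set.mem_ofPred_eq, key, thin_succ, Fin.cons_zero]
        simp only [Set.mem_empty_iff_false, iff_false, not_and]
        intro h1
        exact absurd h0 h1
      · refine (ih (X := fun v => X (Fin.cons (α := fun _ => K) (w 0) v)) ?_ h0 j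
          (Fin.tail w)).subset ?_
        · exact S.subst h (S.tm_cons (S.const _) (fun j => S.var _))
        · intro c hc
          rw [Set.mem_ofPred_eq, key, thin_succ, Fin.cons_zero, Fin.tail_cons] at hc
          exact hc.2

variable [Infinite K]

/-- The first claim in dimension `m`. -/
def Claim (m : ℕ) : Prop := ∀ Γ : (Fin m → K) → (Fin m → K) → Prop, S.Fam Γ →
  (∀ᶠ v in L K m, ∃ w, Γ v w) → (∀ w, {v | Γ v w}.Finite) → ∀ᶠ w in L K m, ∃ v, Γ v w

/-- The second claim in dimension `m`. -/
def Claim' (m : ℕ) : Prop := ∀ Γ : (Fin (m + 1) → K) → (Fin m → K) → Prop, S.Fam Γ →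
  (∀ᶠ v in L K (m + 1), ∃ w, Γ v w) → (∀ w, {v | Γ v w}.Finite) → False

theorem claim'_of_claim (hS : S.Sym) {m : ℕ} (hm : S.Claim m) : S.Claim' m := by
  intro Γ hΓ hdom hfib
  rw [eventually_succ] at hdom
  have h1 : ∀ᶠ x in cofinite, ∀ᶠ w in L K m, ∃ v, Γ (Fin.cons (α := fun _ => K) x v) w := by
    filter_upwards [hdom] with x hx
    refine hm (fun v w => Γ (Fin.cons (α := fun _ => K) x v) w) ?_ hx ?_
    · exact Fam.subst hΓ (S.tm_cons (S.const _) (fun j => S.var _)) (fun j => S.var _)
    · intro w
      refine Set.Finite.of_finite_image ((hfib w).subset ?_)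
        (f := fun v => Fin.cons (α := fun _ => K) x v) ?_
      · rintro _ ⟨v, hv, rfl⟩
        exact hv
      · intro a _ b _ hab
        exact Fin.cons_right_injective (α := fun _ => K) x hab
  have h2 := S.fubini hS (R := fun x w => ∃ v, Γ (Fin.cons (α := fun _ => K) x v) w) (by
    apply S.exs (X := fun (q : Option (Fin m) → K) v =>
      Γ (Fin.cons (α := fun _ => K) (q none) v) fun i => q (some i))
    exact Fam.subst hΓ (S.tm_cons (S.var _) (fun j => S.var _)) (fun j => S.var _)) h1
  obtain ⟨w, hw⟩ := h2.exists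
  rw [eventually_cofinite] at hw
  have h3 : {x | ∃ v, Γ (Fin.cons (α := fun _ => K) x v) w}.Finite := by
    refine ((hfib w).image fun v => v 0).subset ?_
    rintro x ⟨v, hv⟩
    exact ⟨_, hv, by simp⟩
  apply Set.infinite_univ (α := K)
  refine (h3.union hw).subset ?_
  intro x _
  by_cases hx : ∃ v, Γ (Fin.cons (α := fun _ => K) x v) w
  · left; exact hx
  · right; exact hx

theorem claim_succ {m : ℕ} (hm : S.Claim' m) : S.Claim (m + 1) := by
  intro Γ hΓ hdom hfib
  by_contra hX
  have hXdef : S.Def fun w : Fin (m + 1) → K => ∃ v, Γ v w := by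
    apply S.exs (X := fun w v => Γ v w)
    exact Fam.subst hΓ (fun j => S.var _) (fun j => S.var _)
  set X : (Fin (m + 1) → K) → Prop := fun w => ∃ v, Γ v w with hXX
  have hthin : ∀ i, S.Def fun u => thin (m + 1) X i u := by
    intro i
    have h1 : S.Fam fun (_ : Empty → K) u => X u := by
      apply S.subst hXdef
      exact fun j => S.var _
    have h2 := S.thin_def h1 i
    exact Fam.subst (F := fun _ a => a.elim) (G := fun u => u) h2 (fun j => j.elim)
      (fun j => S.var _)
  have hex : ∃ i : Fin (m + 1), ∀ᶠ v in L K (m + 1), ∃ w, Γ v w ∧ thin (m + 1) X i w := by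
    by_contra hno
    rw [not_exists] at hno
    have h3 : ∀ i : Fin (m + 1), ∀ᶠ v in L K (m + 1), ¬ ∃ w, Γ v w ∧ thin (m + 1) X i w := by
      intro i
      refine (S.ultra (X := fun v => ∃ w, Γ v w ∧ thin (m + 1) X i w) ?_).resolve_left ?_
      · apply S.exs (X := fun v w => Γ v w ∧ thin (m + 1) X i w)
        refine S.and hΓ ?_
        exact S.subst (hthin i) (fun j => S.var _)
      · exact hno i
    have h4 := eventually_all.mpr h3
    obtain ⟨v, ⟨w, hw⟩, hv⟩ := (hdom.and h4).exists
    obtain ⟨i, hi⟩ := thin_cover hX (u := w) ⟨v, hw⟩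
    exact hv i ⟨w, hw, hi⟩
  obtain ⟨i, hi⟩ := hex
  refine hm (fun v w' => ∃ c, Γ v (i.insertNth (α := fun _ => K) c w') ∧
    thin (m + 1) X i (i.insertNth (α := fun _ => K) c w')) ?_ ?_ ?_
  · apply S.ex (P := fun c (q : Fin (m + 1) ⊕ Fin m → K) =>
      Γ (fun i => q (.inl i)) (i.insertNth (α := fun _ => K) c fun j => q (.inr j)) ∧
      thin (m + 1) X i (i.insertNth (α := fun _ => K) c fun j => q (.inr j)))
    refine S.and ?_ ?_
    · exact Fam.subst hΓ (fun j => S.var _) (S.tm_insert (S.var _) (fun j => S.var _))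
    · exact S.subst (hthin i) (S.tm_insert (S.var _) (fun j => S.var _))
  · filter_upwards [hi] with v hv
    obtain ⟨w, hw, hw'⟩ := hv
    refine ⟨i.removeNth w, w i, ?_, ?_⟩
    · rwa [Fin.insertNth_self_removeNth]
    · rwa [Fin.insertNth_self_removeNth]
  · intro w'
    refine ((S.thin_finite hXdef hX i w').biUnion
      (t := fun c => {v | Γ v (i.insertNth (α := fun _ => K) c w')}) fun c _ => hfib _).subset ?_
    rintro v ⟨c, hc, hc'⟩
    rw [Set.mem_iUnion₂]
    exact ⟨c, hc', hc⟩

/-- In the symmetric case, the image of a definable finite-to-one relation with generic domain is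
generic. -/
theorem claim (hS : S.Sym) (m : ℕ) : S.Claim m := by
  induction m with
  | zero =>
    intro Γ _ hdom _
    rw [eventually_zero] at hdom ⊢
    obtain ⟨w, hw⟩ := hdom
    exact ⟨Fin.elim0, by rwa [Subsingleton.elim w Fin.elim0] at hw⟩
  | succ m ih => exact S.claim_succ (S.claim'_of_claim hS ih)

end DefSys

end Pool.Agent.Lib.MP_097535_lc.NIP
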